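import Mathlib

open Polynomial

namespace Pool.Agent.H961R3.C

section Hensel

variable {A : Type*} [CommRing A]

lemma mem_map_iff (I : Ideal A) (f : A[X]) :
    f ∈ I.map (C : A →+* A[X]) ↔ f.map (Ideal.Quotient.mk I) = 0 := by
  rw [Ideal.mem_map_C_iff, Polynomial.ext_iff]
  simp only [coeff_map, coeff_zero, Ideal.Quotient.eq_zero_iff_mem]

lemma div_mod_mem (I : Ideal A) (G E : A[X]) (hG : G.Monic)
    (hE : E ∈ I.map (C : A →+* A[X])) :
    E /ₘ G ∈ I.map (C : A →+* A[X]) ∧ E %ₘ G ∈ I.map (C : A →+* A[X]) := by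
  rw [mem_map_iff] at hE
  constructor
  · rw [mem_map_iff, Polynomial.map_divByMonic _ hG, hE, Polynomial.zero_divByMonic]
  · rw [mem_map_iff, Polynomial.map_modByMonic _ hG, hE, Polynomial.zero_modByMonic]

theorem hensel [Nontrivial A] (I : Ideal A) (F g h a b : A[X]) (hg : g.Monic)
    (hab : a * g + b * h - 1 ∈ I.map (C : A →+* A[X]))
    (hF : F - g * h ∈ I.map (C : A →+* A[X])) (N : ℕ) :
    ∃ G H : A[X], G.Monic ∧ G.natDegree = g.natDegree ∧
      G - g ∈ I.map (C : A →+* A[X]) ∧ H - h ∈ I.map (C : A →+* A[X]) ∧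
      F - G * H ∈ (I.map (C : A →+* A[X])) ^ (N + 1) := by
  induction N with
  | zero => exact ⟨g, h, hg, rfl, by simp, by simp, by simpa using hF⟩
  | succ N ih =>
    obtain ⟨G, H, hG, hdeg, hGg, hHh, hE⟩ := ih
    set J := I.map (C : A →+* A[X]) with hJ
    set E := F - G * H with hEdef
    have hEb : E * b ∈ (I ^ (N + 1)).map (C : A →+* A[X]) := by
      rw [Ideal.map_pow]
      exact Ideal.mul_mem_right _ _ hE
    obtain ⟨hq, hr⟩ := div_mod_mem (I ^ (N + 1)) G (E * b) hG hEb
    rw [Ideal.map_pow, ← hJ] at hq hr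
    set q := E * b /ₘ G with hqdef
    set r := E * b %ₘ G with hrdef
    have hdiv : r + G * q = E * b := Polynomial.modByMonic_add_div _ G
    have hrlt : r.degree < G.degree := Polynomial.degree_modByMonic_lt _ hG
    have hNle : J ^ (N + 1) ≤ J := Ideal.pow_le_self (by omega)
    have hη : E * a + q * H ∈ J ^ (N + 1) :=
      Ideal.add_mem _ (Ideal.mul_mem_right _ _ hE) (Ideal.mul_mem_right _ _ hq)
    refine ⟨G + r, H + (E * a + q * H), hG.add_of_left hrlt, ?_, ?_, ?_, ?_⟩
    · rw [Polynomial.natDegree_add_eq_left_of_degree_lt hrlt, hdeg]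
    · have : G + r - g = (G - g) + r := by ring
      rw [this]
      exact Ideal.add_mem _ hGg (hNle hr)
    · have : H + (E * a + q * H) - h = (H - h) + (E * a + q * H) := by ring
      rw [this]
      exact Ideal.add_mem _ hHh (hNle hη)
    · have h1 : a * G + b * H - 1 ∈ J := by
        have : a * G + b * H - 1 = (a * g + b * h - 1) + (a * (G - g) + b * (H - h)) := by ring
        rw [this]
        exact Ideal.add_mem _ hab
          (Ideal.add_mem _ (Ideal.mul_mem_left _ _ hGg) (Ideal.mul_mem_left _ _ hHh))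
      have h2 : F - (G + r) * (H + (E * a + q * H)) =
          -(E * (a * G + b * H - 1)) - r * (E * a + q * H) := by
        have hF' : F = E + G * H := by rw [hEdef]; ring
        have hr' : r = E * b - G * q := by rw [← hdiv]; ring
        rw [hF']
        have : (E + G * H) - (G + r) * (H + (E * a + q * H)) =
          E - G * (E * a + q * H) - r * H - r * (E * a + q * H) := by ring
        rw [this]
        have h3 : r * H = (E * b - G * q) * H := by rw [← hr']
        rw [h3]
        ring
      rw [h2]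
      apply Ideal.sub_mem
      · apply neg_mem
        rw [pow_succ]
        exact Ideal.mul_mem_mul hE h1
      · have h4 : r * (E * a + q * H) ∈ J ^ (N + 1) * J ^ (N + 1) := Ideal.mul_mem_mul hr hη
        rw [← pow_add] at h4
        exact Ideal.pow_le_pow_right (by omega) h4

end Hensel

end Pool.Agent.H961R3.C
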