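import Mathlib
import Pool.Agent.H961R3.CA

open Polynomial

namespace Pool.Agent.H961R3.C

lemma isCoprime_of_nilp {A : Type*} [CommRing A] (π : A) (hπ : IsNilpotent π)
    (f g u v w : A) (h : u * f + v * g = 1 + π * w) : IsCoprime f g := by
  have hn : IsNilpotent (π * w) := (Commute.all _ _).isNilpotent_mul_right hπ
  obtain ⟨e, he⟩ := hn.isUnit_one_add
  refine ⟨↑e⁻¹ * u, ↑e⁻¹ * v, ?_⟩
  have : (↑e⁻¹ : A) * u * f + ↑e⁻¹ * v * g = ↑e⁻¹ * (u * f + v * g) := by ring
  rw [this, h, ← he, Units.inv_mul]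

/-- the ideal `(p, x)` of `ℤ[x]` -/
noncomputable def II (p : ℤ) : Ideal ℤ[X] := Ideal.span {C p, X}

/-- evaluation of the parameter at `p s` -/
noncomputable def ev (p s : ℤ) : ℤ[X][X] →+* ℤ[X] := Polynomial.mapRingHom (evalRingHom (p * s))

lemma II_map_le (p s : ℤ) : (II p).map (evalRingHom (p * s)) ≤ Ideal.span {p} := by
  rw [II, Ideal.map_span, Ideal.span_le]
  rintro x ⟨y, hy, rfl⟩
  rcases hy with rfl | hy
  · simp
  · rw [Set.mem_singleton_iff] at hy
    subst hy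
    simp [Ideal.mem_span_singleton]

lemma ev_mem_pow (p s : ℤ) (N : ℕ) (f : ℤ[X][X])
    (hf : f ∈ ((II p).map (C : ℤ[X] →+* ℤ[X][X])) ^ N) :
    ∀ i, p ^ N ∣ (ev p s f).coeff i := by
  intro i
  rw [← Ideal.map_pow, Ideal.mem_map_C_iff] at hf
  have h1 := hf i
  have h2 : (evalRingHom (p * s)) (f.coeff i) ∈ ((II p) ^ N).map (evalRingHom (p * s)) :=
    Ideal.mem_map_of_mem _ h1
  rw [Ideal.map_pow] at h2
  have h3 := Ideal.pow_right_mono (II_map_le p s) N h2
  rw [Ideal.span_singleton_pow, Ideal.mem_span_singleton] at h3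
  simpa [ev] using h3

lemma ev_mem_pow' (p s : ℤ) (N : ℕ) (f : ℤ[X][X])
    (hf : f ∈ ((II p).map (C : ℤ[X] →+* ℤ[X][X])) ^ N) :
    ∃ w : ℤ[X], ev p s f = C (p ^ N) * w := by
  have := ev_mem_pow p s N f hf
  rw [← Polynomial.C_dvd_iff_dvd_coeff] at this
  exact this

lemma map_eq_of_coeff (q : ℕ) (f g : ℤ[X])
    (h : f.map (Int.castRingHom (ZMod q)) = g.map (Int.castRingHom (ZMod q))) (i : ℕ) :
    (q : ℤ) ∣ f.coeff i - g.coeff i := by
  have := congrArg (fun t => t.coeff i) h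
  simp only [coeff_map, Int.coe_castRingHom] at this
  exact (ZMod.intCast_eq_intCast_iff_dvd_sub _ _ _).1 this.symm

lemma map_C_q (q : ℕ) (w : ℤ[X]) :
    (C (q : ℤ) * w).map (Int.castRingHom (ZMod q)) = 0 := by
  simp

/-- The parametrised factors. -/
theorem structure_thm (p m : ℕ) (hp : p.Prime) (hm : 1 ≤ m) (R P g h : ℤ[X])
    (hg : g.Monic)
    (hcop : ∃ a b w : ℤ[X], a * g + b * h = 1 + C (p : ℤ) * w)
    (hR : ∃ w : ℤ[X], R = g * h + C (p : ℤ) * w) :
    ∃ G H : ℤ[X][X], ∀ (s : ℤ) (A A' : ℤ[X]), A * A' = R + C (p * s) * P →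
      (∃ w : ℤ[X], A = C A.leadingCoeff * g + C (p : ℤ) * w) →
      ¬ ((p : ℤ) ∣ A.leadingCoeff) →
      A.natDegree = g.natDegree →
      (∀ i, ((p : ℤ) ^ m) ∣ A.coeff i - A.leadingCoeff * ((G.coeff i).eval (p * s))) ∧
      (∀ i, ((p : ℤ) ^ m) ∣ A.leadingCoeff * A'.coeff i - (H.coeff i).eval (p * s)) := by
  obtain ⟨a, b, w1, hab⟩ := hcop
  obtain ⟨w2, hR⟩ := hR
  obtain ⟨N, rfl⟩ : ∃ N, m = N + 1 := ⟨m - 1, by omega⟩
  set J := (II (p : ℤ)).map (C : ℤ[X] →+* ℤ[X][X]) with hJ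
  -- the embedding of `ℤ[T]` in `ℤ[x][T]`
  let ι : ℤ[X] →+* ℤ[X][X] := Polynomial.mapRingHom (C : ℤ →+* ℤ[X])
  have hevι : ∀ (s : ℤ) (f : ℤ[X]), ev p s (ι f) = f := by
    intro s f
    simp only [ev, ι, Polynomial.coe_mapRingHom, Polynomial.map_map]
    have : (evalRingHom ((p : ℤ) * s)).comp (C : ℤ →+* ℤ[X]) = RingHom.id ℤ := by
      ext; simp
    rw [this, Polynomial.map_id]
  have hpJ : (C (C (p : ℤ)) : ℤ[X][X]) ∈ J := by
    apply Ideal.mem_map_of_mem
    exact Ideal.subset_span (by simp)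
  have hxJ : (C X : ℤ[X][X]) ∈ J := by
    apply Ideal.mem_map_of_mem
    exact Ideal.subset_span (by simp)
  have hιp : ∀ w : ℤ[X], ι (C (p : ℤ) * w) ∈ J := by
    intro w
    have : ι (C (p : ℤ) * w) = C (C (p : ℤ)) * ι w := by
      rw [map_mul]; simp [ι]
    rw [this]
    exact Ideal.mul_mem_right _ _ hpJ
  have hgM : (ι g).Monic := hg.map _
  have h1 : ι a * ι g + ι b * ι h - 1 ∈ J := by
    have : ι a * ι g + ι b * ι h - 1 = ι (C (p : ℤ) * w1) := by
      rw [← map_mul, ← map_mul, ← map_add, hab]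
      rw [map_add, map_one]; ring
    rw [this]; exact hιp _
  have h2 : (ι R + C X * ι P) - ι g * ι h ∈ J := by
    have : (ι R + C X * ι P) - ι g * ι h = ι (C (p : ℤ) * w2) + C X * ι P := by
      rw [hR, map_add, map_mul]; ring
    rw [this]
    exact Ideal.add_mem _ (hιp _) (Ideal.mul_mem_right _ _ hxJ)
  obtain ⟨G, H, hGM, hGdeg, hGg, hHh, hF⟩ := hensel (II (p : ℤ)) (ι R + C X * ι P) (ι g) (ι h)
    (ι a) (ι b) hgM h1 h2 N
  refine ⟨G, H, ?_⟩
  intro s A A' hAA' hAg hpA hAdeg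
  obtain ⟨w3, hAg⟩ := hAg
  -- specialised lifts
  set Gs := ev p s G with hGs
  set Hs := ev p s H with hHs
  have hGsM : Gs.Monic := hGM.map _
  have hGsdeg : Gs.natDegree = g.natDegree := by
    have e1 : Gs.natDegree = G.natDegree := hGM.natDegree_map _
    have e2 : (ι g).natDegree = g.natDegree := hg.natDegree_map _
    rw [e1, hGdeg, e2]
  obtain ⟨w4, hw4⟩ := ev_mem_pow' p s (N + 1) _ hF
  have hFs : ev p s (ι R + C X * ι P - G * H) = (R + C (p * s) * P) - Gs * Hs := by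
    rw [map_sub, map_mul, map_add, map_mul, hevι, hevι]
    simp [ev, hGs, hHs]
  rw [hFs] at hw4
  have hHh' : ∃ w5 : ℤ[X], Hs = h + C (p : ℤ) * w5 := by
    have : H - ι h ∈ J ^ 1 := by rw [pow_one]; exact hHh
    obtain ⟨w5, hw5⟩ := ev_mem_pow' p s 1 _ this
    rw [map_sub, hevι, pow_one] at hw5
    exact ⟨w5, by rw [← hw5]; ring⟩
  obtain ⟨w5, hw5⟩ := hHh'
  set q : ℕ := p ^ (N + 1) with hq
  have hqZ : ((p : ℤ) ^ (N + 1)) = ((q : ℕ) : ℤ) := by rw [hq]; push_cast; rfl
  set φ := Int.castRingHom (ZMod q) with hφ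
  have : NeZero q := ⟨by rw [hq]; exact pow_ne_zero _ hp.ne_zero⟩
  have : Nontrivial (ZMod q) := by
    have : Fact (1 < q) := ⟨by
      rw [hq]; exact Nat.one_lt_pow (by omega) hp.one_lt⟩
    infer_instance
  -- inverse of the leading coefficient
  have hunit : ∃ c : ZMod q, c * φ A.leadingCoeff = 1 := by
    have hcp : IsCoprime (A.leadingCoeff) ((p : ℤ) ^ (N + 1)) := by
      apply IsCoprime.pow_right
      rw [isCoprime_comm]
      exact (Nat.prime_iff_prime_int.1 hp).coprime_iff_not_dvd.2 hpA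
    obtain ⟨u, v, huv⟩ := hcp
    refine ⟨φ u, ?_⟩
    have := congrArg φ huv
    rw [map_add, map_mul, map_mul, hqZ] at this
    simpa [hφ] using this
  obtain ⟨c, hc⟩ := hunit
  have hφA : φ A.leadingCoeff ≠ 0 := by
    intro h0
    rw [h0, mul_zero] at hc
    exact zero_ne_one hc
  have hA0 : A ≠ 0 := by
    rintro rfl
    simp at hpA
  set As := C c * A.map φ with hAs
  have hAsdeg : As.natDegree ≤ A.natDegree := by
    rw [hAs]
    exact (natDegree_C_mul_le _ _).trans (natDegree_map_le)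
  have hAscoeff : As.coeff A.natDegree = 1 := by
    rw [hAs, coeff_C_mul, coeff_map]
    exact hc
  have hAsM : As.Monic := monic_of_natDegree_le_of_coeff_eq_one _ hAsdeg hAscoeff
  have hAsdeg' : As.natDegree = A.natDegree := by
    apply le_antisymm hAsdeg
    apply le_natDegree_of_ne_zero
    rw [hAscoeff]; exact one_ne_zero
  have hAsA : A.map φ = C (φ A.leadingCoeff) * As := by
    rw [hAs, ← mul_assoc, ← C_mul, mul_comm (φ A.leadingCoeff) c, hc, C_1, one_mul]
  -- product identity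
  have hprod : A.map φ * A'.map φ = Gs.map φ * Hs.map φ := by
    have e1 : (A * A').map φ = (Gs * Hs).map φ := by
      rw [hAA']
      have : R + C ((p : ℤ) * s) * P = Gs * Hs + C ((q : ℕ) : ℤ) * w4 := by
        rw [← hqZ, ← hw4]; ring
      rw [this, Polynomial.map_add, map_C_q, add_zero]
    rw [Polynomial.map_mul, Polynomial.map_mul] at e1
    exact e1
  have hnil : IsNilpotent (C ((p : ℕ) : ZMod q) : (ZMod q)[X]) := by
    refine ⟨N + 1, ?_⟩
    rw [← C_pow, ← Nat.cast_pow, ← hq]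
    simp
  have hcopr : IsCoprime As (Hs.map φ) := by
    refine isCoprime_of_nilp (C ((p : ℕ) : ZMod q)) hnil As (Hs.map φ) (a.map φ) (b.map φ)
      (w1.map φ + a.map φ * (C c * w3.map φ) + b.map φ * w5.map φ) ?_
    have e1 : As = g.map φ + C ((p : ℕ) : ZMod q) * (C c * w3.map φ) := by
      have e0 := congrArg (Polynomial.map φ) hAg
      rw [Polynomial.map_add, Polynomial.map_mul, Polynomial.map_mul, Polynomial.map_C,
        Polynomial.map_C] at e0
      have e00 : C c * (C (φ A.leadingCoeff) * g.map φ) = g.map φ := by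
        rw [← mul_assoc, ← C_mul, hc, C_1, one_mul]
      rw [hAs, e0, mul_add, e00]
      simp only [hφ, Int.coe_castRingHom, Int.cast_natCast]
      ring
    have e2 : Hs.map φ = h.map φ + C ((p : ℕ) : ZMod q) * w5.map φ := by
      rw [hw5, Polynomial.map_add, Polynomial.map_mul, Polynomial.map_C]
      simp [hφ]
    have e3 : a.map φ * g.map φ + b.map φ * h.map φ = 1 + C ((p : ℕ) : ZMod q) * w1.map φ := by
      have := congrArg (Polynomial.map φ) hab
      rw [Polynomial.map_add, Polynomial.map_mul, Polynomial.map_mul, Polynomial.map_add,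
        Polynomial.map_mul, Polynomial.map_C, Polynomial.map_one] at this
      simpa [hφ] using this
    rw [e1, e2]
    linear_combination e3
  have hdvd : As ∣ Gs.map φ := by
    apply hcopr.dvd_of_dvd_mul_right
    rw [← hprod, hAsA]
    exact ⟨C (φ A.leadingCoeff) * A'.map φ, by ring⟩
  have hGsφM : (Gs.map φ).Monic := hGsM.map _
  have heq : Gs.map φ = As := by
    apply eq_of_monic_of_dvd_of_natDegree_le hAsM hGsφM hdvd
    rw [hGsM.natDegree_map, hGsdeg, hAsdeg', hAdeg]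
  have key1 : A.map φ = (C A.leadingCoeff * Gs).map φ := by
    rw [Polynomial.map_mul, Polynomial.map_C, heq, hAsA]
  have key2 : (C A.leadingCoeff * A').map φ = Hs.map φ := by
    rw [Polynomial.map_mul, Polynomial.map_C]
    apply hGsφM.isRegular.left
    show Gs.map φ * _ = Gs.map φ * _
    rw [← hprod, hAsA, heq]
    ring
  constructor
  · intro i
    have := map_eq_of_coeff q _ _ key1 i
    rw [hqZ]
    simpa [hGs, ev] using this
  · intro i
    have := map_eq_of_coeff q _ _ key2 i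
    rw [hqZ]
    simpa [hHs, ev] using this

end Pool.Agent.H961R3.C
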