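import Mathlib
import Pool.Agent.H961R3.CB

open Polynomial

namespace Pool.Agent.H961R3.C

lemma deg_C_mul_le {A : Type*} [CommRing A] (a : A) (f : A[X]) : (C a * f).degree ≤ f.degree := by
  rw [degree_le_iff_coeff_zero]
  intro k hk
  rw [coeff_C_mul, coeff_eq_zero_of_degree_lt hk, mul_zero]

/-- truncation of the parameter polynomial -/
lemma trunc (χ : ℤ[X]) (p : ℤ) (m : ℕ) :
    ∃ c : ℤ[X], c.degree < m ∧ ∀ s : ℤ, p ^ m ∣ χ.eval (p * s) - c.eval s := by
  refine ⟨(χ %ₘ X ^ m).comp (C p * X), ?_, ?_⟩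
  · have h1 : (χ %ₘ X ^ m).degree < m := by
      have := degree_modByMonic_lt χ (monic_X_pow (R := ℤ) m)
      rwa [degree_X_pow] at this
    by_cases h0 : χ %ₘ X ^ m = 0
    · rw [h0, zero_comp, degree_zero]
      exact WithBot.bot_lt_coe _
    · have h2 : (χ %ₘ X ^ m).natDegree < m := by
        rwa [natDegree_lt_iff_degree_lt h0]
      have h3 : ((χ %ₘ X ^ m).comp (C p * X)).natDegree ≤ (χ %ₘ X ^ m).natDegree := by
        refine natDegree_comp_le.trans ?_
        have : (C p * X : ℤ[X]).natDegree ≤ 1 := (natDegree_C_mul_le _ _).trans natDegree_X_le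
        calc _ ≤ (χ %ₘ X ^ m).natDegree * 1 := Nat.mul_le_mul_left _ this
          _ = _ := mul_one _
      refine lt_of_le_of_lt degree_le_natDegree ?_
      exact_mod_cast lt_of_le_of_lt h3 h2
  · intro s
    have h1 := modByMonic_add_div χ (X ^ m)
    have h2 : χ.eval (p * s) = (χ %ₘ X ^ m).eval (p * s) + (p * s) ^ m * (χ /ₘ X ^ m).eval (p * s) := by
      conv_lhs => rw [← h1]
      simp
    rw [h2, eval_comp]
    simp only [eval_mul, eval_C, eval_X]
    rw [mul_pow]
    exact ⟨s ^ m * (χ /ₘ X ^ m).eval (p * s), by ring⟩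

/-- common denominator -/
def WW (V : Finset ℤ) : ℤ := ∏ a ∈ V, ∏ u ∈ V.erase a, (a - u)

def ww (V : Finset ℤ) (v : ℤ) : ℤ := ∏ a ∈ V.erase v, ∏ u ∈ V.erase a, (a - u)

/-- scaled Lagrange basis polynomial -/
noncomputable def LL (V : Finset ℤ) (v : ℤ) : ℤ[X] := C (ww V v) * ∏ u ∈ V.erase v, (X - C u)

lemma WW_ne (V : Finset ℤ) : WW V ≠ 0 := by
  unfold WW
  rw [Finset.prod_ne_zero_iff]
  intro a _
  rw [Finset.prod_ne_zero_iff]
  intro u hu
  have := Finset.ne_of_mem_erase hu
  exact sub_ne_zero.2 (Ne.symm this)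

lemma LL_eval_self (V : Finset ℤ) (v : ℤ) (hv : v ∈ V) : (LL V v).eval v = WW V := by
  unfold LL WW ww
  rw [eval_mul, eval_C, eval_prod]
  simp only [eval_sub, eval_X, eval_C]
  rw [Finset.prod_erase_mul V (fun a => ∏ u ∈ V.erase a, (a - u)) hv]

lemma LL_eval_ne (V : Finset ℤ) (v u : ℤ) (hu : u ∈ V) (huv : u ≠ v) : (LL V v).eval u = 0 := by
  unfold LL
  rw [eval_mul, eval_prod, Finset.prod_eq_zero (i := u), mul_zero]
  · exact Finset.mem_erase.2 ⟨huv, hu⟩
  · simp

lemma LL_degree (V : Finset ℤ) (v : ℤ) (hv : v ∈ V) : (LL V v).degree < V.card := by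
  have h1 : (LL V v).natDegree ≤ (V.erase v).card := by
    unfold LL
    refine (natDegree_C_mul_le _ _).trans ?_
    rw [natDegree_prod_of_monic _ _ (fun u _ => monic_X_sub_C u)]
    simp only [natDegree_X_sub_C, Finset.sum_const, smul_eq_mul, mul_one, le_refl]
  have h2 := Finset.card_erase_of_mem hv
  have h3 : 0 < V.card := Finset.card_pos.2 ⟨v, hv⟩
  refine lt_of_le_of_lt degree_le_natDegree ?_
  have : (LL V v).natDegree < V.card := by omega
  exact_mod_cast this

lemma interp (V : Finset ℤ) (c : ℤ[X]) (hc : c.degree < V.card) (s : ℤ) :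
    WW V * c.eval s = ∑ v ∈ V, c.eval v * (LL V v).eval s := by
  have key : C (WW V) * c = ∑ v ∈ V, C (c.eval v) * LL V v := by
    apply eq_of_degrees_lt_of_eval_finset_eq V
    · refine lt_of_le_of_lt (deg_C_mul_le _ _) hc
    · refine lt_of_le_of_lt (degree_sum_le _ _) ?_
      rw [Finset.sup_lt_iff]
      · intro v hv
        exact lt_of_le_of_lt (deg_C_mul_le _ _) (LL_degree V v hv)
      · exact WithBot.bot_lt_coe _
    · intro u hu
      rw [eval_finsetSum, Finset.sum_eq_single u]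
      · simp only [eval_mul, eval_C]
        rw [LL_eval_self V u hu]; ring
      · intro v hv hvu
        rw [eval_mul, LL_eval_ne V v u hu (Ne.symm hvu), mul_zero]
      · intro h; exact absurd hu h
  have := congrArg (eval s) key
  rw [eval_finsetSum] at this
  simpa using this

/-- uniform bound for the interpolation constants -/
noncomputable def Kc (M : ℤ) : ℤ :=
  ∑ V ∈ (Finset.Icc 1 M).powerset, ∑ s ∈ Finset.Icc 1 M,
    (|WW V| + ∑ v ∈ V, |(LL V v).eval s|)

lemma le_Kc (M : ℤ) (V : Finset ℤ) (hV : V ⊆ Finset.Icc 1 M) (s : ℤ) (hs : s ∈ Finset.Icc 1 M) :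
    |WW V| + ∑ v ∈ V, |(LL V v).eval s| ≤ Kc M := by
  unfold Kc
  have h0 : ∀ (V : Finset ℤ) (s : ℤ), 0 ≤ |WW V| + ∑ v ∈ V, |(LL V v).eval s| := by
    intro V s
    have := Finset.sum_nonneg (fun v (_ : v ∈ V) => abs_nonneg ((LL V v).eval s))
    positivity
  have h1 := Finset.single_le_sum (f := fun s => |WW V| + ∑ v ∈ V, |(LL V v).eval s|)
    (s := Finset.Icc 1 M) (fun s _ => h0 V s) hs
  have h2 := Finset.single_le_sum
    (f := fun V => ∑ s ∈ Finset.Icc 1 M, (|WW V| + ∑ v ∈ V, |(LL V v).eval s|))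
    (s := (Finset.Icc 1 M).powerset) (fun V _ => Finset.sum_nonneg (fun s _ => h0 V s))
    (Finset.mem_powerset.2 hV)
  exact h1.trans h2

/-- Interpolation of small quantities which are congruent to polynomial values. -/
theorem interp_small (p : ℤ) (m : ℕ) (M Bd : ℤ) (S V : Finset ℤ)
    (hS : S ⊆ Finset.Icc 1 M) (hV : V ⊆ S) (hVc : V.card = m)
    (B : ℤ → ℤ[X]) (hB : ∀ i, ∃ χ : ℤ[X], ∀ s ∈ S, p ^ m ∣ (B s).coeff i - χ.eval (p * s))
    (hBd : ∀ s ∈ S, ∀ i, |(B s).coeff i| ≤ Bd) (hsmall : Kc M * Bd < p ^ m) :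
    ∃ 𝔅 : ℤ[X][X], 𝔅.degree < m ∧ ∀ s ∈ S, 𝔅.eval (C s) = C (WW V) * B s := by
  refine ⟨∑ v ∈ V, C (B v) * (LL V v).map C, ?_, ?_⟩
  · refine lt_of_le_of_lt (degree_sum_le _ _) ?_
    rw [Finset.sup_lt_iff]
    · intro v hv
      refine lt_of_le_of_lt (deg_C_mul_le _ _) ?_
      rw [← hVc]
      exact lt_of_le_of_lt (degree_map_le) (LL_degree V v hv)
    · exact WithBot.bot_lt_coe _
  · intro s hs
    have e1 : (∑ v ∈ V, C (B v) * (LL V v).map C : ℤ[X][X]).eval (C s) =
        ∑ v ∈ V, B v * C ((LL V v).eval s) := by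
      rw [eval_finsetSum]
      apply Finset.sum_congr rfl
      intro v _
      rw [eval_mul, eval_C, eval_map]
      congr 1
      rw [eval₂_at_apply]
    rw [e1]
    ext i
    rw [finsetSum_coeff, coeff_C_mul]
    simp only [coeff_mul_C]
    obtain ⟨χ, hχ⟩ := hB i
    obtain ⟨c, hcdeg, hc⟩ := trunc χ p m
    have hd : ∀ t ∈ S, p ^ m ∣ (B t).coeff i - c.eval t := by
      intro t ht
      have := dvd_add (hχ t ht) (hc t)
      simpa using this
    have hi := interp V c (by rw [hVc]; exact hcdeg) s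
    have hdvd : p ^ m ∣ (∑ v ∈ V, (B v).coeff i * (LL V v).eval s) - WW V * (B s).coeff i := by
      have : (∑ v ∈ V, (B v).coeff i * (LL V v).eval s) - WW V * (B s).coeff i =
          (∑ v ∈ V, ((B v).coeff i - c.eval v) * (LL V v).eval s)
            - WW V * ((B s).coeff i - c.eval s) := by
        have e2 : ∑ v ∈ V, ((B v).coeff i - c.eval v) * (LL V v).eval s =
            ∑ v ∈ V, (B v).coeff i * (LL V v).eval s - ∑ v ∈ V, c.eval v * (LL V v).eval s := by
          rw [← Finset.sum_sub_distrib]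
          apply Finset.sum_congr rfl
          intro v _; ring
        rw [e2, ← hi]; ring
      rw [this]
      apply dvd_sub
      · apply Finset.dvd_sum
        intro v hv
        exact (hd v (hV hv)).mul_right _
      · exact (hd s hs).mul_left _
    have habs : |(∑ v ∈ V, (B v).coeff i * (LL V v).eval s) - WW V * (B s).coeff i| < p ^ m := by
      have hBd0 : 0 ≤ Bd := (abs_nonneg _).trans (hBd s hs i)
      calc |(∑ v ∈ V, (B v).coeff i * (LL V v).eval s) - WW V * (B s).coeff i|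
          ≤ |∑ v ∈ V, (B v).coeff i * (LL V v).eval s| + |WW V * (B s).coeff i| := abs_sub _ _
        _ ≤ (∑ v ∈ V, |(B v).coeff i * (LL V v).eval s|) + |WW V * (B s).coeff i| := by
            gcongr; exact Finset.abs_sum_le_sum_abs _ _
        _ ≤ (∑ v ∈ V, |(LL V v).eval s| * Bd) + |WW V| * Bd := by
            gcongr with v hv
            · rw [abs_mul, mul_comm]
              gcongr
              exact hBd v (hV hv) i
            · rw [abs_mul]
              gcongr
              exact hBd s hs i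
        _ = (|WW V| + ∑ v ∈ V, |(LL V v).eval s|) * Bd := by
            rw [← Finset.sum_mul]; ring
        _ ≤ Kc M * Bd := by
            gcongr
            exact le_Kc M V (hV.trans hS) s (hS hs)
        _ < p ^ m := hsmall
    have := Int.eq_zero_of_abs_lt_dvd hdvd habs
    linarith

end Pool.Agent.H961R3.C
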