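import Mathlib
import Pool.Agent.H961R3.CC

open Polynomial

namespace Pool.Agent.H961R3.C

lemma natDegree_lt_of_degree_lt' {A : Type*} [Semiring A] {f : A[X]} {m : ℕ} (hm : 1 ≤ m)
    (h : f.degree < m) : f.natDegree < m := by
  by_cases h0 : f = 0
  · rw [h0, natDegree_zero]; omega
  · exact (natDegree_lt_iff_degree_lt h0).2 h

/-- facts on the members of the family -/
lemma family_facts (p : ℤ) (n : ℕ) (R P : ℤ[X]) (hRdeg : R.natDegree = n)
    (hPdeg : P.natDegree ≤ n) (hpR : ¬ (p ∣ R.leadingCoeff)) (s : ℤ) :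
    (R + C (p * s) * P).natDegree = n ∧
      (R + C (p * s) * P).leadingCoeff = R.coeff n + p * s * P.coeff n ∧
      ¬ (p ∣ (R + C (p * s) * P).leadingCoeff) := by
  have hle : (R + C (p * s) * P).natDegree ≤ n := by
    refine (natDegree_add_le _ _).trans ?_
    rw [hRdeg]
    exact max_le le_rfl ((natDegree_C_mul_le _ _).trans hPdeg)
  have hc : (R + C (p * s) * P).coeff n = R.coeff n + p * s * P.coeff n := by
    rw [coeff_add, coeff_C_mul]
  have hnd : ¬ (p ∣ R.coeff n + p * s * P.coeff n) := by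
    intro h
    apply hpR
    have h2 : p ∣ p * s * P.coeff n := ⟨s * P.coeff n, by ring⟩
    have := (dvd_add_left h2).1 h
    rwa [leadingCoeff, hRdeg]
  have hne : (R + C (p * s) * P).coeff n ≠ 0 := by
    rw [hc]; intro h0
    exact hnd (h0 ▸ dvd_zero p)
  have heq : (R + C (p * s) * P).natDegree = n :=
    le_antisymm hle (le_natDegree_of_ne_zero hne)
  refine ⟨heq, ?_, ?_⟩
  · rw [leadingCoeff, heq, hc]
  · rw [leadingCoeff, heq, hc]; exact hnd

/-- The linear polynomial in the parameter is prime over `ℚ[T]`. -/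
lemma prime_lin (a b : ℚ[X]) (hb : b ≠ 0) (hab : IsCoprime a b) :
    Prime (C b * X + C a : ℚ[X][X]) := by
  apply Irreducible.prime
  apply irreducible_C_mul_X_add_C hb
  exact hab.symm.isRelPrime

theorem core (p m n : ℕ) (M Bd : ℤ) (hp : p.Prime) (hm : 1 ≤ m) (hn : 1 ≤ n)
    (R P g h : ℤ[X]) (hg : g.Monic)
    (hcop : ∃ a b w : ℤ[X], a * g + b * h = 1 + C (p : ℤ) * w)
    (hR : ∃ w : ℤ[X], R = g * h + C (p : ℤ) * w)
    (hRdeg : R.natDegree = n) (hPdeg : P.natDegree ≤ n)
    (hRP : IsCoprime (R.map (Int.castRingHom ℚ)) (P.map (Int.castRingHom ℚ)))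
    (hpR : ¬ ((p : ℤ) ∣ R.leadingCoeff))
    (S : Finset ℤ) (hS : S ⊆ Finset.Icc 1 M) (hScard : 2 * m + 1 ≤ S.card)
    (A A' : ℤ → ℤ[X]) (hAA' : ∀ s ∈ S, A s * A' s = R + C (p * s) * P)
    (hA1 : ∀ s ∈ S, 1 ≤ (A s).natDegree) (hA1' : ∀ s ∈ S, 1 ≤ (A' s).natDegree)
    (hAg : ∀ s ∈ S, ∃ w : ℤ[X], A s = C (A s).leadingCoeff * g + C (p : ℤ) * w)
    (hAdeg : ∀ s ∈ S, (A s).natDegree = g.natDegree)
    (hBd : ∀ s ∈ S, ∀ i, |(A' s).leadingCoeff * (A s).coeff i| ≤ Bd)
    (hBd' : ∀ s ∈ S, ∀ i, |(A s).leadingCoeff * (A' s).coeff i| ≤ Bd)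
    (hsmall : Kc M * Bd < (p : ℤ) ^ m) : False := by
  obtain ⟨G, H, hGH⟩ := structure_thm p m hp hm R P g h hg hcop hR
  have hlc : ∀ s ∈ S, (A s).leadingCoeff * (A' s).leadingCoeff
      = R.coeff n + p * s * P.coeff n := by
    intro s hs
    rw [← leadingCoeff_mul, hAA' s hs]
    exact (family_facts p n R P hRdeg hPdeg hpR s).2.1
  have hnd : ∀ s ∈ S, ¬ ((p : ℤ) ∣ (A s).leadingCoeff * (A' s).leadingCoeff) := by
    intro s hs
    rw [← leadingCoeff_mul, hAA' s hs]
    exact (family_facts p n R P hRdeg hPdeg hpR s).2.2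
  have hnA : ∀ s ∈ S, ¬ ((p : ℤ) ∣ (A s).leadingCoeff) := by
    intro s hs h1
    exact hnd s hs (h1.mul_right _)
  have hdeg : ∀ s ∈ S, (A s).natDegree + (A' s).natDegree = n := by
    intro s hs
    have hA0 : A s ≠ 0 := by
      intro h0
      have := hnA s hs
      rw [h0] at this; simp at this
    have hA0' : A' s ≠ 0 := by
      intro h0
      have := hnd s hs
      rw [h0] at this; simp at this
    rw [← natDegree_mul hA0 hA0', hAA' s hs]
    exact (family_facts p n R P hRdeg hPdeg hpR s).1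
  obtain ⟨V, hVS, hVc⟩ := Finset.exists_subset_card_eq (s := S) (n := m) (by omega)
  have hB : ∀ i, ∃ χ : ℤ[X], ∀ s ∈ S,
      (p : ℤ) ^ m ∣ (C (A' s).leadingCoeff * A s).coeff i - χ.eval (p * s) := by
    intro i
    refine ⟨(C (R.coeff n) + X * C (P.coeff n)) * G.coeff i, ?_⟩
    intro s hs
    have h1 := (hGH s (A s) (A' s) (hAA' s hs) (hAg s hs) (hnA s hs) (hAdeg s hs)).1 i
    have h2 := h1.mul_left (A' s).leadingCoeff
    have h3 : (C (A' s).leadingCoeff * A s).coeff i -
        ((C (R.coeff n) + X * C (P.coeff n)) * G.coeff i).eval ((p : ℤ) * s) =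
        (A' s).leadingCoeff * ((A s).coeff i
          - (A s).leadingCoeff * ((G.coeff i).eval ((p : ℤ) * s))) := by
      rw [coeff_C_mul, eval_mul, eval_add, eval_C, eval_mul, eval_X, eval_C, ← hlc s hs]
      ring
    rw [h3]; exact h2
  have hB' : ∀ i, ∃ χ : ℤ[X], ∀ s ∈ S,
      (p : ℤ) ^ m ∣ (C (A s).leadingCoeff * A' s).coeff i - χ.eval (p * s) := by
    intro i
    refine ⟨H.coeff i, ?_⟩
    intro s hs
    have h1 := (hGH s (A s) (A' s) (hAA' s hs) (hAg s hs) (hnA s hs) (hAdeg s hs)).2 i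
    rw [coeff_C_mul]; exact h1
  obtain ⟨𝔅, h𝔅d, h𝔅⟩ := interp_small p m M Bd S V hS hVS hVc
    (fun s => C (A' s).leadingCoeff * A s) hB
    (fun s hs i => by simpa using hBd s hs i) hsmall
  obtain ⟨𝔅', h𝔅d', h𝔅'⟩ := interp_small p m M Bd S V hS hVS hVc
    (fun s => C (A s).leadingCoeff * A' s) hB'
    (fun s hs i => by simpa using hBd' s hs i) hsmall
  have h1 := natDegree_lt_of_degree_lt' hm h𝔅d
  have h1' := natDegree_lt_of_degree_lt' hm h𝔅d'
  -- the product identity
  have hid : 𝔅 * 𝔅' = C (C (WW V ^ 2)) * ((C (C (R.coeff n)) + X * C (C (p * P.coeff n))) *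
      (C (C (p : ℤ) * P) * X + C R)) := by
    have hcard : (S.image (C : ℤ → ℤ[X])).card = S.card :=
      Finset.card_image_of_injective _ C_injective
    apply eq_of_degrees_lt_of_eval_finset_eq (S.image (C : ℤ → ℤ[X]))
    · rw [hcard]
      refine lt_of_le_of_lt degree_le_natDegree ?_
      have := natDegree_mul_le (p := 𝔅) (q := 𝔅')
      have h5 : (𝔅 * 𝔅').natDegree < S.card := by omega
      exact_mod_cast h5
    · rw [hcard]
      refine lt_of_le_of_lt degree_le_natDegree ?_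
      have h5 : (C (C (WW V ^ 2)) * ((C (C (R.coeff n)) + X * C (C (p * P.coeff n))) *
        (C (C (p : ℤ) * P) * X + C R)) : ℤ[X][X]).natDegree ≤ 2 := by
        refine (natDegree_C_mul_le _ _).trans ?_
        refine natDegree_mul_le.trans ?_
        have e1 : (C (C (R.coeff n)) + X * C (C (p * P.coeff n)) : ℤ[X][X]).natDegree ≤ 1 := by
          refine (natDegree_add_le _ _).trans ?_
          apply max_le
          · rw [natDegree_C]; omega
          · rw [mul_comm]
            exact (natDegree_C_mul_le _ _).trans natDegree_X_le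
        have e2 : (C (C (p : ℤ) * P) * X + C R : ℤ[X][X]).natDegree ≤ 1 := by
          refine (natDegree_add_le _ _).trans ?_
          apply max_le
          · exact (natDegree_C_mul_le _ _).trans natDegree_X_le
          · rw [natDegree_C]; omega
        omega
      have h6 : (C (C (WW V ^ 2)) * ((C (C (R.coeff n)) + X * C (C (p * P.coeff n))) *
        (C (C (p : ℤ) * P) * X + C R)) : ℤ[X][X]).natDegree < S.card := by omega
      exact_mod_cast h6
    · intro x hx
      rw [Finset.mem_image] at hx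
      obtain ⟨s, hs, rfl⟩ := hx
      rw [eval_mul, h𝔅 s hs, h𝔅' s hs]
      simp only [eval_mul, eval_add, eval_C, eval_X]
      have h7 := hAA' s hs
      have h8 := congrArg (C : ℤ → ℤ[X]) (hlc s hs)
      simp only [C_mul, C_add] at h8 h7
      have h9 : C (WW V) * (C (A' s).leadingCoeff * A s) *
          (C (WW V) * (C (A s).leadingCoeff * A' s)) =
          C (WW V) ^ 2 * ((C (A s).leadingCoeff * C (A' s).leadingCoeff) * (A s * A' s)) := by
        ring
      rw [h9, h7, h8]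
      simp only [C_pow, C_mul]
      ring
  -- pass to `ℚ`
  set ψ : ℤ[X] →+* ℚ[X] := Polynomial.mapRingHom (Int.castRingHom ℚ) with hψ
  have hψinj : Function.Injective ψ := Polynomial.map_injective _ (RingHom.injective_int _)
  have hpq : (C (p : ℚ) : ℚ[X]) * C ((p : ℚ)⁻¹) = 1 := by
    rw [← C_mul, mul_inv_cancel₀ (by exact_mod_cast hp.ne_zero), C_1]
  have hP0 : ψ P ≠ 0 := by
    intro h0
    have : IsUnit (ψ R) := by
      have h2 : IsCoprime (ψ R) 0 := by
        have := hRP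
        change IsCoprime (ψ R) (ψ P) at this
        rwa [h0] at this
      exact isCoprime_zero_right.1 h2
    have h3 := natDegree_eq_zero_of_isUnit this
    have h4 : (ψ R).natDegree = R.natDegree :=
      natDegree_map_eq_of_injective (RingHom.injective_int _) R
    omega
  have hb0 : ψ (C (p : ℤ) * P) ≠ 0 := by
    rw [map_mul]
    apply mul_ne_zero _ hP0
    rw [Ne, map_eq_zero_iff _ hψinj, C_eq_zero]
    exact_mod_cast hp.ne_zero
  have hcopr : IsCoprime (ψ R) (ψ (C (p : ℤ) * P)) := by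
    obtain ⟨u, v, huv⟩ := hRP
    change u * ψ R + v * ψ P = 1 at huv
    refine ⟨u, v * C ((p : ℚ)⁻¹), ?_⟩
    have h2 : ψ (C (p : ℤ) * P) = C (p : ℚ) * ψ P := by
      rw [map_mul]; simp [hψ]
    rw [h2]
    linear_combination huv + v * ψ P * hpq
  have hprime := prime_lin (ψ R) (ψ (C (p : ℤ) * P)) hb0 hcopr
  have hdvd : (C (ψ (C (p : ℤ) * P)) * X + C (ψ R) : ℚ[X][X]) ∣ 𝔅.map ψ * 𝔅'.map ψ := by
    rw [← Polynomial.map_mul, hid]
    rw [Polynomial.map_mul, Polynomial.map_mul]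
    have : ((C (C (p : ℤ) * P) * X + C R : ℤ[X][X]).map ψ) =
        C (ψ (C (p : ℤ) * P)) * X + C (ψ R) := by
      rw [Polynomial.map_add, Polynomial.map_mul, Polynomial.map_C, Polynomial.map_C,
        Polynomial.map_X]
    rw [this]
    exact Dvd.intro_left _ (by rw [mul_assoc])
  obtain ⟨s, hs⟩ : S.Nonempty := Finset.card_pos.1 (by omega)
  -- specialisation lemma
  have spec : ∀ (B : ℤ[X]) (ℬ : ℤ[X][X]), B ≠ 0 → B.natDegree < n →
      ℬ.eval (C s) = C (WW V) * B →
      ¬ ((C (ψ (C (p : ℤ) * P)) * X + C (ψ R) : ℚ[X][X]) ∣ ℬ.map ψ) := by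
    intro B ℬ hB0 hBn hev hdv
    obtain ⟨Q, hQ⟩ := hdv
    have h2 := congrArg (eval (ψ (C s))) hQ
    rw [eval_map, eval₂_at_apply, hev, eval_mul] at h2
    have h3 : eval (ψ (C s)) (C (ψ (C (p : ℤ) * P)) * X + C (ψ R) : ℚ[X][X]) =
        ψ (R + C (p * s) * P) := by
      simp only [eval_add, eval_mul, eval_C, eval_X]
      rw [← map_mul, ← map_add]
      congr 1
      rw [C_mul]; ring
    rw [h3] at h2
    have h4 : ψ (R + C (p * s) * P) ∣ ψ (C (WW V) * B) := ⟨_, h2⟩
    have h5 : ψ (C (WW V) * B) ≠ 0 := by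
      rw [Ne, map_eq_zero_iff _ hψinj]
      exact mul_ne_zero (by rw [Ne, C_eq_zero]; exact WW_ne V) hB0
    have h6 := natDegree_le_of_dvd h4 h5
    have h7 : (ψ (R + C (p * s) * P)).natDegree = (R + C (p * s) * P).natDegree :=
      natDegree_map_eq_of_injective (RingHom.injective_int _) _
    have h8 : (ψ (C (WW V) * B)).natDegree = (C (WW V) * B).natDegree :=
      natDegree_map_eq_of_injective (RingHom.injective_int _) _
    rw [h7, h8, (family_facts p n R P hRdeg hPdeg hpR s).1] at h6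
    have h9 := natDegree_C_mul_le (WW V) B
    omega
  have hne : (A s).leadingCoeff ≠ 0 ∧ (A' s).leadingCoeff ≠ 0 := by
    have := hnd s hs
    constructor
    · intro h0; rw [h0] at this; simp at this
    · intro h0; rw [h0] at this; simp at this
  have hne2 : A s ≠ 0 ∧ A' s ≠ 0 :=
    ⟨leadingCoeff_ne_zero.1 hne.1, leadingCoeff_ne_zero.1 hne.2⟩
  have hd := hdeg s hs
  have hd1 := hA1 s hs
  have hd2 := hA1' s hs
  rcases hprime.dvd_or_dvd hdvd with h2 | h2
  · refine spec (C (A' s).leadingCoeff * A s) 𝔅 ?_ ?_ (h𝔅 s hs) h2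
    · exact mul_ne_zero (by rw [Ne, C_eq_zero]; exact hne.2) hne2.1
    · have := natDegree_C_mul_le (A' s).leadingCoeff (A s)
      omega
  · refine spec (C (A s).leadingCoeff * A' s) 𝔅' ?_ ?_ (h𝔅' s hs) h2
    · exact mul_ne_zero (by rw [Ne, C_eq_zero]; exact hne.1) hne2.2
    · have := natDegree_C_mul_le (A s).leadingCoeff (A' s)
      omega

end Pool.Agent.H961R3.C
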