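import Mathlib
import Pool.Agent.H961R3.CD

open Polynomial UniqueFactorizationMonoid

namespace Pool.Agent.H961R3.C

lemma card_nf_le (p : ℕ) [Fact p.Prime] (f : (ZMod p)[X]) (hf : f ≠ 0) :
    Multiset.card (normalizedFactors f) ≤ f.natDegree := by
  have h1 : Associated (normalizedFactors f).prod f := prod_normalizedFactors hf
  have h2 : (normalizedFactors f).prod.natDegree = f.natDegree :=
    natDegree_eq_of_degree_eq (degree_eq_degree_of_associated h1)
  rw [← h2, natDegree_multiset_prod _ (zero_notMem_normalizedFactors _)]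
  have h3 : ∀ x ∈ Multiset.map natDegree (normalizedFactors f), 1 ≤ x := by
    intro x hx
    rw [Multiset.mem_map] at hx
    obtain ⟨y, hy, rfl⟩ := hx
    have hirr := irreducible_of_normalized_factor y hy
    exact Nat.one_le_iff_ne_zero.2 (fun h0 => hirr.not_isUnit (by
      rw [Polynomial.isUnit_iff_degree_eq_zero]
      rw [degree_eq_natDegree hirr.ne_zero, h0]; rfl))
  have h4 := Multiset.card_nsmul_le_sum h3
  simpa using h4

lemma dvd_of_map_zero (p : ℕ) (f : ℤ[X]) (h : f.map (Int.castRingHom (ZMod p)) = 0) :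
    ∃ w : ℤ[X], f = C (p : ℤ) * w := by
  have : C (p : ℤ) ∣ f := by
    rw [C_dvd_iff_dvd_coeff]
    intro i
    have := congrArg (fun t => t.coeff i) h
    simp only [coeff_map, Int.coe_castRingHom, coeff_zero] at this
    exact (ZMod.intCast_zmod_eq_zero_iff_dvd _ _).1 this
  exact this

theorem exists_irred_member (p m n : ℕ) (Bd : ℤ) (hp : p.Prime) (hm : 1 ≤ m) (hn : 1 ≤ n)
    (R P : ℤ[X]) (hRdeg : R.natDegree = n) (hPdeg : P.natDegree ≤ n)
    (hRP : IsCoprime (R.map (Int.castRingHom ℚ)) (P.map (Int.castRingHom ℚ)))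
    (hpR : ¬ ((p : ℤ) ∣ R.leadingCoeff))
    (hsep : (R.map (Int.castRingHom (ZMod p))).Separable)
    (hBd : ∀ s ∈ Finset.Icc (1 : ℤ) (2 ^ n * (2 * m + 1) : ℕ), ∀ A A' : ℤ[X],
      A * A' = R + C (p * s) * P → ∀ i, |A'.leadingCoeff * A.coeff i| ≤ Bd)
    (hsmall : Kc (2 ^ n * (2 * m + 1) : ℕ) * Bd < (p : ℤ) ^ m) :
    ∃ s ∈ Finset.Icc (1 : ℤ) (2 ^ n * (2 * m + 1) : ℕ), ∀ A A' : ℤ[X],
      A * A' = R + C (p * s) * P → A.natDegree = 0 ∨ A'.natDegree = 0 := by
  have : Fact p.Prime := ⟨hp⟩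
  by_contra hcon
  push Not at hcon
  set M : ℕ := 2 ^ n * (2 * m + 1) with hM
  have hch : ∀ s : ℤ, ∃ AA : ℤ[X] × ℤ[X], s ∈ Finset.Icc (1 : ℤ) M →
      AA.1 * AA.2 = R + C (p * s) * P ∧ AA.1.natDegree ≠ 0 ∧ AA.2.natDegree ≠ 0 := by
    intro s
    by_cases hs : s ∈ Finset.Icc (1 : ℤ) M
    · obtain ⟨A, A', h1, h2, h3⟩ := hcon s hs
      exact ⟨(A, A'), fun _ => ⟨h1, h2, h3⟩⟩
    · exact ⟨(0, 0), fun h => absurd h hs⟩
  choose AA hAA using hch
  set φ := Int.castRingHom (ZMod p) with hφ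
  set Rb := R.map φ with hRb
  have hφlc : φ R.leadingCoeff ≠ 0 := by
    intro h0
    apply hpR
    rw [← ZMod.intCast_zmod_eq_zero_iff_dvd]
    simpa [hφ] using h0
  have hRbdeg : Rb.natDegree = n := by
    rw [hRb, natDegree_map_of_leadingCoeff_ne_zero _ hφlc, hRdeg]
  have hRb0 : Rb ≠ 0 := by
    intro h0
    rw [h0, natDegree_zero] at hRbdeg
    omega
  have hprod : ∀ s ∈ Finset.Icc (1 : ℤ) M, (AA s).1.map φ * (AA s).2.map φ = Rb := by
    intro s hs
    rw [← Polynomial.map_mul, (hAA s hs).1, Polynomial.map_add, Polynomial.map_mul,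
      Polynomial.map_C]
    have : φ ((p : ℤ) * s) = 0 := by simp [hφ]
    rw [this, C_0, zero_mul, add_zero]
  have hdvd : ∀ s ∈ Finset.Icc (1 : ℤ) M, (AA s).1.map φ ∣ Rb :=
    fun s hs => ⟨_, (hprod s hs).symm⟩
  have hne : ∀ s ∈ Finset.Icc (1 : ℤ) M, (AA s).1.map φ ≠ 0 := by
    intro s hs h0
    have := hprod s hs
    rw [h0, zero_mul] at this
    exact hRb0 this.symm
  -- pigeonhole
  classical
  obtain ⟨K, -, hK⟩ := Finset.exists_le_card_fiber_of_mul_le_card_of_maps_to
    (s := Finset.Icc (1 : ℤ) M) (t := (normalizedFactors Rb).powerset.toFinset)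
    (f := fun s => normalizedFactors ((AA s).1.map φ)) (n := 2 * m + 1)
    (by
      intro s hs
      rw [Multiset.mem_toFinset, Multiset.mem_powerset]
      exact (dvd_iff_normalizedFactors_le_normalizedFactors (hne s hs) hRb0).1 (hdvd s hs))
    ⟨0, by
      rw [Multiset.mem_toFinset, Multiset.mem_powerset]
      exact Multiset.zero_le _⟩
    (by
      have h1 : (normalizedFactors Rb).powerset.toFinset.card ≤ 2 ^ n := by
        refine (Multiset.toFinset_card_le _).trans ?_
        rw [Multiset.card_powerset]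
        apply Nat.pow_le_pow_right (by norm_num)
        rw [← hRbdeg]
        exact card_nf_le p Rb hRb0
      have h2 : (Finset.Icc (1 : ℤ) M).card = M := by simp
      rw [h2, hM]
      exact Nat.mul_le_mul_right _ h1)
  set S := (Finset.Icc (1 : ℤ) M).filter
    (fun s => normalizedFactors ((AA s).1.map φ) = K) with hSdef
  have hSsub : S ⊆ Finset.Icc (1 : ℤ) M := Finset.filter_subset _ _
  obtain ⟨s0, hs0⟩ : S.Nonempty := Finset.card_pos.1 (by omega)
  have hs0' := hSsub hs0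
  set Ab := (AA s0).1.map φ with hAb
  have hAb0 : Ab ≠ 0 := hne s0 hs0'
  have hlc0 : Ab.leadingCoeff ≠ 0 := leadingCoeff_ne_zero.2 hAb0
  set gb := C (Ab.leadingCoeff⁻¹) * Ab with hgb
  have hgbM : gb.Monic := by
    rw [hgb, Monic, leadingCoeff_mul, leadingCoeff_C, inv_mul_cancel₀ hlc0]
  have hAbgb : Ab = C Ab.leadingCoeff * gb := by
    rw [hgb, ← mul_assoc, ← C_mul, mul_inv_cancel₀ hlc0, C_1, one_mul]
  have hlift : gb ∈ Polynomial.lifts φ := by
    rw [Polynomial.lifts_iff_coeff_lifts]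
    intro i
    obtain ⟨z, hz⟩ := ZMod.intCast_surjective (gb.coeff i)
    exact ⟨z, by simpa [hφ] using hz⟩
  obtain ⟨g, hgmap, hgdeg, hgM⟩ := lifts_and_natDegree_eq_and_monic hlift hgbM
  -- leading coefficients
  have hlcA : ∀ s ∈ Finset.Icc (1 : ℤ) M, φ (AA s).1.leadingCoeff ≠ 0 := by
    intro s hs h0
    have h1 := (family_facts p n R P hRdeg hPdeg hpR s).2.2
    apply h1
    rw [← (hAA s hs).1, leadingCoeff_mul]
    apply Dvd.dvd.mul_right
    rw [← ZMod.intCast_zmod_eq_zero_iff_dvd]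
    simpa [hφ] using h0
  have hassoc : ∀ s ∈ S, (AA s).1.map φ = C (φ (AA s).1.leadingCoeff) * gb := by
    intro s hs
    have hs' := hSsub hs
    have h1 : normalizedFactors ((AA s).1.map φ) = normalizedFactors Ab := by
      have e1 := (Finset.mem_filter.1 hs).2
      have e2 := (Finset.mem_filter.1 hs0).2
      rw [e1, hAb, e2]
    have h2 : Associated ((AA s).1.map φ) Ab :=
      (associated_iff_normalizedFactors_eq_normalizedFactors (hne s hs') hAb0).2 h1
    have h3 : gb ∣ (AA s).1.map φ := by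
      have e1 : gb ∣ Ab := ⟨C Ab.leadingCoeff, by rw [mul_comm]; exact hAbgb⟩
      exact e1.trans h2.symm.dvd
    have h4 : ((AA s).1.map φ).natDegree ≤ gb.natDegree := by
      have e1 : ((AA s).1.map φ).natDegree = Ab.natDegree :=
        natDegree_eq_of_degree_eq (degree_eq_degree_of_associated h2)
      have e2 : gb.natDegree = Ab.natDegree := by
        rw [hgb, natDegree_C_mul (inv_ne_zero hlc0)]
      rw [e1, e2]
    have h5 := eq_leadingCoeff_mul_of_monic_of_dvd_of_natDegree_le hgbM h3 h4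
    rw [leadingCoeff_map_of_leadingCoeff_ne_zero φ (hlcA s hs')] at h5
    exact h5
  have hAdeg : ∀ s ∈ S, (AA s).1.natDegree = g.natDegree := by
    intro s hs
    have hs' := hSsub hs
    have e1 : ((AA s).1.map φ).natDegree = (AA s).1.natDegree :=
      natDegree_map_of_leadingCoeff_ne_zero _ (hlcA s hs')
    rw [← e1, hassoc s hs, natDegree_C_mul (hlcA s hs'), hgdeg]
  set h := C (AA s0).1.leadingCoeff * (AA s0).2 with hh
  have hgh : gb * h.map φ = Rb := by
    rw [hh, Polynomial.map_mul, Polynomial.map_C, ← hprod s0 hs0', hassoc s0 hs0]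
    ring
  have hR' : ∃ w : ℤ[X], R = g * h + C (p : ℤ) * w := by
    obtain ⟨w, hw⟩ := dvd_of_map_zero p (R - g * h) (by
      rw [Polynomial.map_sub, Polynomial.map_mul, hgmap, hgh, sub_self])
    exact ⟨w, by rw [← hw]; ring⟩
  have hcop : ∃ a b w : ℤ[X], a * g + b * h = 1 + C (p : ℤ) * w := by
    have h1 : IsCoprime gb (h.map φ) := by
      apply Separable.isCoprime
      rw [hgh]; exact hsep
    obtain ⟨u, v, huv⟩ := h1
    have hsurj : Function.Surjective (Polynomial.map φ) :=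
      Polynomial.map_surjective _ (by
        intro z
        obtain ⟨y, hy⟩ := ZMod.intCast_surjective z
        exact ⟨y, by simpa [hφ] using hy⟩)
    obtain ⟨a, ha⟩ := hsurj u
    obtain ⟨b, hb⟩ := hsurj v
    obtain ⟨w, hw⟩ := dvd_of_map_zero p (a * g + b * h - 1) (by
      rw [Polynomial.map_sub, Polynomial.map_add, Polynomial.map_mul, Polynomial.map_mul, ha, hb,
        hgmap, huv, Polynomial.map_one, sub_self])
    exact ⟨a, b, w, by rw [← hw]; ring⟩
  refine core p m n M Bd hp hm hn R P g h hgM hcop hR' hRdeg hPdeg hRP hpR S hSsub hK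
    (fun s => (AA s).1) (fun s => (AA s).2) (fun s hs => (hAA s (hSsub hs)).1)
    (fun s hs => Nat.one_le_iff_ne_zero.2 (hAA s (hSsub hs)).2.1)
    (fun s hs => Nat.one_le_iff_ne_zero.2 (hAA s (hSsub hs)).2.2) ?_ hAdeg ?_ ?_ hsmall
  · intro s hs
    obtain ⟨w, hw⟩ := dvd_of_map_zero p ((AA s).1 - C (AA s).1.leadingCoeff * g) (by
      rw [Polynomial.map_sub, Polynomial.map_mul, Polynomial.map_C, hgmap, hassoc s hs, sub_self])
    exact ⟨w, by rw [← hw]; ring⟩
  · intro s hs i
    exact hBd s (hSsub hs) _ _ (hAA s (hSsub hs)).1 i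
  · intro s hs i
    exact hBd s (hSsub hs) _ _ (by rw [mul_comm]; exact (hAA s (hSsub hs)).1) i

end Pool.Agent.H961R3.C
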