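import Mathlib

open Polynomial

namespace Pool.Agent.H961R3.C

/-- Mahler measure of an integer polynomial -/
noncomputable def Mm (f : ℤ[X]) : ℝ := (f.map (Int.castRingHom ℂ)).mahlerMeasure

lemma Mm_mul (f g : ℤ[X]) : Mm (f * g) = Mm f * Mm g := by
  unfold Mm
  rw [Polynomial.map_mul, mahlerMeasure_mul]

lemma Mm_nonneg (f : ℤ[X]) : 0 ≤ Mm f := mahlerMeasure_nonneg _

lemma lc_le_Mm (f : ℤ[X]) : |(f.leadingCoeff : ℝ)| ≤ Mm f := by
  have h1 := leadingCoeff_le_mahlerMeasure (f.map (Int.castRingHom ℂ))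
  rw [leadingCoeff_map_of_injective (RingHom.injective_int _)] at h1
  simpa [Mm] using h1

lemma one_le_Mm (f : ℤ[X]) (hf : f ≠ 0) : 1 ≤ Mm f := by
  refine le_trans ?_ (lc_le_Mm f)
  have : (1 : ℤ) ≤ |f.leadingCoeff| := Int.one_le_abs (leadingCoeff_ne_zero.2 hf)
  exact_mod_cast this

lemma coeff_le_Mm (f : ℤ[X]) (i : ℕ) : |(f.coeff i : ℝ)| ≤ 2 ^ f.natDegree * Mm f := by
  have h1 := norm_coeff_le_choose_mul_mahlerMeasure i (f.map (Int.castRingHom ℂ))
  rw [natDegree_map_eq_of_injective (RingHom.injective_int _), coeff_map] at h1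
  have h2 : ((f.natDegree.choose i : ℕ) : ℝ) ≤ 2 ^ f.natDegree := by
    exact_mod_cast Nat.choose_le_two_pow _ _
  calc |(f.coeff i : ℝ)| = ‖(Int.castRingHom ℂ) (f.coeff i)‖ := by simp
    _ ≤ _ := h1
    _ ≤ 2 ^ f.natDegree * Mm f := by
      unfold Mm
      gcongr
      exact mahlerMeasure_nonneg _

lemma Mm_le (f : ℤ[X]) (n : ℕ) (hn : f.natDegree ≤ n) (B : ℝ)
    (hB : ∀ i, |(f.coeff i : ℝ)| ≤ B) : Mm f ≤ (n + 1) * B := by
  have hB0 : 0 ≤ B := (abs_nonneg _).trans (hB 0)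
  have h1 := mahlerMeasure_le_sum_norm_coeff (f.map (Int.castRingHom ℂ))
  refine h1.trans ?_
  rw [Polynomial.sum_over_range _ (by intro k; simp)]
  rw [natDegree_map_eq_of_injective (RingHom.injective_int _)]
  have h2 : ∀ i ∈ Finset.range (f.natDegree + 1), ‖(f.map (Int.castRingHom ℂ)).coeff i‖ ≤ B := by
    intro i _
    rw [coeff_map]
    simpa using hB i
  have h3 := Finset.sum_le_card_nsmul _ _ _ h2
  rw [Finset.card_range, nsmul_eq_mul] at h3
  refine h3.trans ?_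
  gcongr
  have : ((f.natDegree + 1 : ℕ) : ℝ) ≤ ((n + 1 : ℕ) : ℝ) := by exact_mod_cast (by omega)
  simpa using this

lemma pow_lt_aux (X n : ℕ) (hX : 1 ≤ X) (hn : 1 ≤ n) : X ^ (n + 1) + 1 < (X + 1) ^ (n + 1) := by
  have h1 : X ^ n ≤ (X + 1) ^ n := Nat.pow_le_pow_left (by omega) n
  have h2 : 2 ≤ (X + 1) ^ n := by
    calc 2 = 2 ^ 1 := by norm_num
      _ ≤ 2 ^ n := Nat.pow_le_pow_right (by norm_num) hn
      _ ≤ (X + 1) ^ n := Nat.pow_le_pow_left (by omega) n
  have h3 : (X + 1) ^ (n + 1) = (X + 1) ^ n * X + (X + 1) ^ n := by ring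
  have h4 : X ^ (n + 1) = X ^ n * X := pow_succ X n
  have h5 : X ^ n * X ≤ (X + 1) ^ n * X := Nat.mul_le_mul_right X h1
  omega

/-- Dirichlet's theorem -/
theorem dirichlet (n : ℕ) (hn : 1 ≤ n) (ζ : ℝ) : ∃ C1 : ℝ, 1 ≤ C1 ∧ ∀ X : ℕ, 1 ≤ X →
    ∃ P : ℤ[X], P ≠ 0 ∧ P.natDegree ≤ n ∧ (∀ i, |(P.coeff i : ℝ)| ≤ X) ∧
      |aeval ζ P| ≤ C1 / (X : ℝ) ^ n := by
  set Z : ℝ := (max 1 |ζ|) ^ n with hZ
  have hZ1 : 1 ≤ Z := one_le_pow₀ (le_max_left _ _)
  have hZi : ∀ i : Fin (n + 1), |ζ ^ (i : ℕ)| ≤ Z := by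
    intro i
    rw [abs_pow, hZ]
    calc |ζ| ^ (i : ℕ) ≤ (max 1 |ζ|) ^ (i : ℕ) :=
          pow_le_pow_left₀ (abs_nonneg _) (le_max_right _ _) _
      _ ≤ _ := pow_le_pow_right₀ (le_max_left _ _) (by omega)
  refine ⟨2 * (n + 1) * Z, ?_, ?_⟩
  · have : (0 : ℝ) ≤ n := Nat.cast_nonneg n
    nlinarith
  intro Y hY
  have hYR : (1 : ℝ) ≤ Y := by exact_mod_cast hY
  set B : ℝ := (n + 1) * Y * Z with hB
  have hBpos : 0 < B := by positivity
  set v : (Fin (n + 1) → Fin (Y + 1)) → ℝ := fun c => ∑ i, ((c i : ℕ) : ℝ) * ζ ^ (i : ℕ) with hv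
  have hvB : ∀ c, |v c| ≤ B := by
    intro c
    calc |v c| ≤ ∑ i : Fin (n + 1), |((c i : ℕ) : ℝ) * ζ ^ (i : ℕ)| :=
          Finset.abs_sum_le_sum_abs _ _
      _ ≤ ∑ i : Fin (n + 1), (Y : ℝ) * Z := by
          apply Finset.sum_le_sum
          intro i _
          rw [abs_mul]
          have h1 : |((c i : ℕ) : ℝ)| ≤ Y := by
            rw [abs_of_nonneg (Nat.cast_nonneg _)]
            have : (c i : ℕ) ≤ Y := by omega
            exact_mod_cast this
          exact mul_le_mul h1 (hZi i) (abs_nonneg _) (by positivity)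
      _ = B := by
          rw [Finset.sum_const, Finset.card_univ, Fintype.card_fin, nsmul_eq_mul, hB]
          push_cast; ring
  set δ : ℝ := 2 * B / (Y : ℝ) ^ (n + 1) with hδ
  have hδpos : 0 < δ := by positivity
  obtain ⟨c, -, c', -, hne, hfl⟩ := Finset.exists_ne_map_eq_of_card_lt_of_maps_to
    (s := (Finset.univ : Finset (Fin (n + 1) → Fin (Y + 1))))
    (t := Finset.range (Y ^ (n + 1) + 1)) (f := fun c => ⌊(v c + B) / δ⌋₊)
    (by
      rw [Finset.card_range, Finset.card_univ, Fintype.card_fun, Fintype.card_fin,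
        Fintype.card_fin]
      exact pow_lt_aux Y n hY hn)
    (by
      intro c _
      simp only [Finset.coe_range, Set.mem_Iio]
      have h1 : (v c + B) / δ ≤ ((Y ^ (n + 1) : ℕ) : ℝ) := by
        rw [div_le_iff₀ hδpos, hδ]
        have h2 := (abs_le.1 (hvB c)).2
        have h3 : ((Y ^ (n + 1) : ℕ) : ℝ) * (2 * B / (Y : ℝ) ^ (n + 1)) = 2 * B := by
          push_cast; field_simp
        rw [h3]; linarith
      have h4 := Nat.floor_le_of_le h1
      omega)
  have hclose : |v c - v c'| ≤ δ := by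
    have h1 : 0 ≤ (v c + B) / δ := by
      have := (abs_le.1 (hvB c)).1
      apply div_nonneg _ hδpos.le; linarith
    have h1' : 0 ≤ (v c' + B) / δ := by
      have := (abs_le.1 (hvB c')).1
      apply div_nonneg _ hδpos.le; linarith
    have h2 := Nat.floor_le h1
    have h2' := Nat.floor_le h1'
    have h3 := Nat.lt_floor_add_one ((v c + B) / δ)
    have h3' := Nat.lt_floor_add_one ((v c' + B) / δ)
    rw [hfl] at h2 h3
    have h4 : |(v c + B) / δ - (v c' + B) / δ| ≤ 1 := by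
      rw [abs_le]; constructor <;> linarith
    have h5 : (v c + B) / δ - (v c' + B) / δ = (v c - v c') / δ := by ring
    rw [h5, abs_div, abs_of_pos hδpos, div_le_one hδpos] at h4
    exact h4
  set D : Fin (n + 1) → ℤ := fun i => ((c i : ℕ) : ℤ) - ((c' i : ℕ) : ℤ) with hD
  set P : ℤ[X] := ∑ i : Fin (n + 1), monomial (i : ℕ) (D i) with hP
  have hcoeff : ∀ k, P.coeff k = if hk : k < n + 1 then D ⟨k, hk⟩ else 0 := by
    intro k
    rw [hP, finsetSum_coeff]
    simp only [coeff_monomial]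
    split_ifs with hk
    · rw [Finset.sum_eq_single (⟨k, hk⟩ : Fin (n + 1))]
      · simp
      · intro b _ hb
        rw [if_neg]
        intro h; apply hb; exact Fin.ext h
      · intro h; exact absurd (Finset.mem_univ _) h
    · apply Finset.sum_eq_zero
      intro i _
      rw [if_neg]
      have := i.2; omega
  refine ⟨P, ?_, ?_, ?_, ?_⟩
  · intro h0
    apply hne
    funext i
    have h1 := hcoeff i
    rw [h0, coeff_zero, dif_pos i.2] at h1
    simp only [hD] at h1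
    apply Fin.ext
    have : ((c i : ℕ) : ℤ) = ((c' i : ℕ) : ℤ) := by
      have e : (⟨(i : ℕ), i.2⟩ : Fin (n + 1)) = i := rfl
      rw [e] at h1; linarith
    exact_mod_cast this
  · rw [natDegree_le_iff_coeff_eq_zero]
    intro k hk
    rw [hcoeff, dif_neg (by omega)]
  · intro k
    rw [hcoeff]
    split_ifs with hk
    · simp only [hD]
      push_cast
      have e1 : (((c ⟨k, hk⟩ : ℕ)) : ℝ) ≤ Y := by
        have : (c ⟨k, hk⟩ : ℕ) ≤ Y := by omega
        exact_mod_cast this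
      have e2 : (((c' ⟨k, hk⟩ : ℕ)) : ℝ) ≤ Y := by
        have : (c' ⟨k, hk⟩ : ℕ) ≤ Y := by omega
        exact_mod_cast this
      have e3 : (0 : ℝ) ≤ ((c ⟨k, hk⟩ : ℕ)) := Nat.cast_nonneg _
      have e4 : (0 : ℝ) ≤ ((c' ⟨k, hk⟩ : ℕ)) := Nat.cast_nonneg _
      rw [abs_le]; constructor <;> linarith
    · simp
  · have h1 : aeval ζ P = v c - v c' := by
      rw [hP, map_sum, hv]
      simp only [aeval_monomial]
      rw [← Finset.sum_sub_distrib]
      apply Finset.sum_congr rfl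
      intro i _
      simp only [hD, algebraMap_int_eq, Int.coe_castRingHom]
      push_cast; ring
    rw [h1]
    refine hclose.trans (le_of_eq ?_)
    rw [hδ, hB]
    field_simp
    ring

end Pool.Agent.H961R3.C
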