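import Mathlib
import Pool.Agent.H961R3.CF

open Polynomial

namespace Pool.Agent.H961R3.C

lemma finite_lower {α : Type*} (T : Set α) (hT : T.Finite) (F : α → ℝ) (hF : ∀ t ∈ T, 0 < F t) :
    ∃ c : ℝ, 0 < c ∧ c ≤ 1 ∧ ∀ t ∈ T, c ≤ F t := by
  induction T, hT using Set.Finite.induction_on with
  | empty => exact ⟨1, one_pos, le_rfl, by simp⟩
  | @insert a s ha hs ih =>
    obtain ⟨c, hc0, hc1, hc⟩ := ih (fun t ht => hF t (Set.mem_insert_of_mem _ ht))
    refine ⟨min c (F a), lt_min hc0 (hF a (Set.mem_insert _ _)), (min_le_left _ _).trans hc1, ?_⟩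
    intro t ht
    rcases Set.mem_insert_iff.1 ht with rfl | ht
    · exact min_le_right _ _
    · exact (min_le_left _ _).trans (hc t ht)

lemma aeval_ne (ζ : ℝ) (hζ : Transcendental ℤ ζ) (f : ℤ[X]) (hf : f ≠ 0) : aeval ζ f ≠ 0 :=
  fun h => hζ ⟨f, hf, h⟩

/-- Existence of irreducible polynomials of degree at most `n` with small values. -/
theorem exists_R (n : ℕ) (hn : 1 ≤ n) (ζ : ℝ) (hζ : Transcendental ℤ ζ) (ε : ℝ) (hε : 0 < ε)
    (hεn : ε < n) (K : ℝ) :
    ∃ R : ℤ[X], Irreducible R ∧ 1 ≤ R.natDegree ∧ R.natDegree ≤ n ∧ K ≤ Mm R ∧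
      |aeval ζ R| ≤ (Mm R) ^ (-((n : ℝ) - ε)) := by
  by_contra hcon
  push Not at hcon
  set e : ℝ := n - ε with he
  have he0 : 0 < e := by rw [he]; linarith
  -- the finite set
  set K' : NNReal := ⟨max K 1, le_trans zero_le_one (le_max_right _ _)⟩ with hK'
  have hfin : ({f : ℤ[X] | f.natDegree ≤ n ∧ Mm f ≤ K' ∧ f ≠ 0}).Finite :=
    (finite_mahlerMeasure_le n K').subset (fun f hf => ⟨hf.1, hf.2.1⟩)
  obtain ⟨c, hc0, hc1, hc⟩ := finite_lower _ hfin (fun f => |aeval ζ f|)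
    (fun f hf => abs_pos.2 (aeval_ne ζ hζ f hf.2.2))
  set μ : ℤ[X] → ℝ := fun f => |aeval ζ f| * (Mm f) ^ e with hμ
  have hμmul : ∀ f g, μ (f * g) = μ f * μ g := by
    intro f g
    simp only [hμ]
    rw [map_mul, abs_mul, Mm_mul, Real.mul_rpow (Mm_nonneg f) (Mm_nonneg g)]
    ring
  have hMe : ∀ f : ℤ[X], f ≠ 0 → 1 ≤ (Mm f) ^ e := fun f hf =>
    Real.one_le_rpow (one_le_Mm f hf) he0.le
  have hconst : ∀ f : ℤ[X], f ≠ 0 → f.natDegree = 0 → 1 ≤ μ f := by
    intro f hf hdeg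
    rw [natDegree_eq_zero] at hdeg
    obtain ⟨k, rfl⟩ := hdeg
    have hk : k ≠ 0 := by rintro rfl; simp at hf
    simp only [hμ]
    have h1 : 1 ≤ |aeval ζ (C k : ℤ[X])| := by
      rw [aeval_C]
      have : (1 : ℤ) ≤ |k| := Int.one_le_abs hk
      simpa using (by exact_mod_cast this : (1 : ℝ) ≤ |(k : ℝ)|)
    calc (1 : ℝ) = 1 * 1 := by ring
      _ ≤ _ := mul_le_mul h1 (hMe _ hf) zero_le_one (abs_nonneg _)
  have hirr : ∀ f : ℤ[X], Irreducible f → 1 ≤ f.natDegree → f.natDegree ≤ n → c ≤ μ f := by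
    intro f hf hd hdn
    by_cases hK : K ≤ Mm f
    · have h1 := hcon f hf hd hdn hK
      refine hc1.trans ?_
      simp only [hμ]
      have h2 : 0 < Mm f := lt_of_lt_of_le one_pos (one_le_Mm f hf.ne_zero)
      have h3 : (Mm f) ^ (-e) * (Mm f) ^ e = 1 := by
        rw [← Real.rpow_add h2]; simp
      calc (1 : ℝ) = (Mm f) ^ (-e) * (Mm f) ^ e := h3.symm
        _ ≤ |aeval ζ f| * (Mm f) ^ e := by
          apply mul_le_mul_of_nonneg_right h1.le (by positivity)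
    · push Not at hK
      have h1 : c ≤ |aeval ζ f| := by
        apply hc
        refine ⟨hdn, ?_, hf.ne_zero⟩
        change Mm f ≤ max K 1
        exact hK.le.trans (le_max_left _ _)
      simp only [hμ]
      calc c = c * 1 := by ring
        _ ≤ _ := mul_le_mul h1 (hMe f hf.ne_zero) zero_le_one (abs_nonneg _)
  have hall : ∀ f : ℤ[X], f ≠ 0 → f.natDegree ≤ n → c ^ f.natDegree ≤ μ f := by
    intro f
    induction f using WfDvdMonoid.induction_on_irreducible with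
    | zero => intro h; exact absurd rfl h
    | unit u hu =>
      intro h0 _
      have hd : u.natDegree = 0 := natDegree_eq_zero_of_isUnit hu
      rw [hd, pow_zero]
      exact hconst u h0 hd
    | mul a i ha hi ih =>
      intro h0 hdeg
      rw [natDegree_mul hi.ne_zero ha] at hdeg ⊢
      have h1 := ih ha (by omega)
      rw [hμmul, pow_add]
      have hμi : c ^ i.natDegree ≤ μ i := by
        by_cases hd : i.natDegree = 0
        · rw [hd, pow_zero]; exact hconst i hi.ne_zero hd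
        · have h2 := hirr i hi (by omega) (by omega)
          refine le_trans ?_ h2
          calc c ^ i.natDegree ≤ c ^ 1 := pow_le_pow_of_le_one hc0.le hc1 (by omega)
            _ = c := pow_one c
      have hμi0 : 0 ≤ μ i := le_trans (by positivity) hμi
      exact mul_le_mul hμi h1 (by positivity) hμi0
  obtain ⟨C1, hC1, hD⟩ := dirichlet n hn ζ
  -- choose `X` large
  have hlim : Filter.Tendsto (fun X : ℕ => (X : ℝ) ^ ε) Filter.atTop Filter.atTop :=
    (tendsto_rpow_atTop hε).comp tendsto_natCast_atTop_atTop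
  obtain ⟨X, hX1, hX⟩ := ((Filter.eventually_ge_atTop 1).and
    (hlim.eventually_gt_atTop (C1 * ((n : ℝ) + 1) ^ e / c ^ n))).exists
  obtain ⟨P, hP0, hPdeg, hPc, hPv⟩ := hD X hX1
  have hXR : (1 : ℝ) ≤ X := by exact_mod_cast hX1
  have hXpos : (0 : ℝ) < X := by linarith
  have h1 := hall P hP0 hPdeg
  have h2 : c ^ n ≤ μ P := le_trans (pow_le_pow_of_le_one hc0.le hc1 hPdeg) h1
  have h3 : Mm P ≤ (n + 1) * X := Mm_le P n hPdeg X hPc
  have h4 : (Mm P) ^ e ≤ ((n : ℝ) + 1) ^ e * (X : ℝ) ^ e := by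
    rw [← Real.mul_rpow (by positivity) (by positivity)]
    exact Real.rpow_le_rpow (Mm_nonneg P) h3 he0.le
  have h5 : μ P ≤ C1 / (X : ℝ) ^ n * (((n : ℝ) + 1) ^ e * (X : ℝ) ^ e) :=
    mul_le_mul hPv h4 (Real.rpow_nonneg (Mm_nonneg P) _) (by positivity)
  have h6 : (X : ℝ) ^ e / (X : ℝ) ^ n = (X : ℝ) ^ (-ε) := by
    rw [← Real.rpow_natCast (X : ℝ) n, ← Real.rpow_sub hXpos]
    congr 1
    rw [he]; ring
  have h7 : C1 / (X : ℝ) ^ n * (((n : ℝ) + 1) ^ e * (X : ℝ) ^ e) =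
      C1 * ((n : ℝ) + 1) ^ e * (X : ℝ) ^ (-ε) := by
    rw [← h6]; ring
  rw [h7] at h5
  have h8 : c ^ n ≤ C1 * ((n : ℝ) + 1) ^ e * (X : ℝ) ^ (-ε) := h2.trans h5
  rw [Real.rpow_neg hXpos.le] at h8
  have h9 : 0 < (X : ℝ) ^ ε := Real.rpow_pos_of_pos hXpos _
  rw [div_lt_iff₀ (by positivity)] at hX
  rw [← div_eq_mul_inv, le_div_iff₀ h9] at h8
  linarith

end Pool.Agent.H961R3.C
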