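import Mathlib
import Pool.Agent.H961R3.CF

open Polynomial

namespace Pool.Agent.H961R3.C

lemma sylvester_le (f g : ℤ[X]) (m n : ℕ) (B : ℤ) (hB : 0 ≤ B) (hf : ∀ i, |f.coeff i| ≤ B)
    (hg : ∀ i, |g.coeff i| ≤ B) (i j : Fin (m + n)) : |sylvester f g m n i j| ≤ B := by
  unfold sylvester
  rw [Matrix.of_apply]
  induction j using Fin.addCases with
  | left j =>
    rw [Fin.addCases_left]
    split_ifs
    · exact hg _
    · simpa using hB
  | right j =>
    rw [Fin.addCases_right]
    split_ifs
    · exact hf _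
    · simpa using hB

lemma irred_rat (R : ℤ[X]) (hR : Irreducible R) (hd : 1 ≤ R.natDegree) :
    Irreducible (R.map (Int.castRingHom ℚ)) :=
  (IsPrimitive.Int.irreducible_iff_irreducible_map_cast
    (hR.isPrimitive (by omega))).1 hR

/-- Control of bad primes. -/
theorem disc_bound (n : ℕ) (R : ℤ[X]) (hR : Irreducible R) (hd : 1 ≤ R.natDegree)
    (hdn : R.natDegree ≤ n) (B : ℤ) (hB : 1 ≤ B) (hRB : ∀ i, |R.coeff i| ≤ B) :
    ∃ D : ℤ, D ≠ 0 ∧ |D| ≤ (2 * n).factorial * (n * B) ^ (2 * n + 1) ∧
      ∀ p : ℕ, p.Prime → ¬ ((p : ℤ) ∣ D) →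
        ¬ ((p : ℤ) ∣ R.leadingCoeff) ∧ (R.map (Int.castRingHom (ZMod p))).Separable := by
  set R' := derivative R with hR'
  set m' := R'.natDegree with hm'
  set res := R.resultant R' with hres
  have hm'lt : m' < R.natDegree := natDegree_derivative_lt (by omega)
  have hn1 : 1 ≤ n := by omega
  have hnB : B ≤ n * B := by
    have : (1 : ℤ) ≤ n := by exact_mod_cast hn1
    nlinarith
  have hRB' : ∀ i, |R'.coeff i| ≤ n * B := by
    intro i
    by_cases hi : i + 1 ≤ n
    · rw [hR', coeff_derivative, abs_mul, mul_comm]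
      have h1 : |((i : ℤ) + 1)| ≤ n := by
        rw [abs_of_nonneg (by positivity)]
        exact_mod_cast hi
      exact mul_le_mul h1 (hRB _) (abs_nonneg _) (by positivity)
    · rw [hR', coeff_derivative, coeff_eq_zero_of_natDegree_lt (by omega)]
      simp only [zero_mul, abs_zero]
      positivity
  have hresne : res ≠ 0 := by
    have hirr := irred_rat R hR hd
    have hsep : (R.map (Int.castRingHom ℚ)).Separable := hirr.separable
    have hcop : IsCoprime (R.map (Int.castRingHom ℚ)) (R'.map (Int.castRingHom ℚ)) := by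
      have : IsCoprime (R.map (Int.castRingHom ℚ)) (derivative (R.map (Int.castRingHom ℚ))) := hsep
      rwa [derivative_map] at this
    have h1 := resultant_ne_zero _ _ hcop
    rw [natDegree_map_eq_of_injective (RingHom.injective_int _),
      natDegree_map_eq_of_injective (RingHom.injective_int _), resultant_map_map] at h1
    intro h0
    apply h1
    change (Int.castRingHom ℚ) res = 0
    rw [h0, map_zero]
  have hresB : |res| ≤ (2 * n).factorial * (n * B) ^ (2 * n) := by
    have h1 := Matrix.det_le (A := sylvester R R' R.natDegree m') (abv := AbsoluteValue.abs)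
      (x := n * B) (fun i j => sylvester_le R R' _ _ _ (by positivity)
        (fun i => (hRB i).trans hnB) hRB' i j)
    rw [Fintype.card_fin] at h1
    have h2 : (sylvester R R' R.natDegree m').det = res := rfl
    rw [h2] at h1
    have h3 : (AbsoluteValue.abs : AbsoluteValue ℤ ℤ) res = |res| := rfl
    rw [h3, nsmul_eq_mul] at h1
    refine h1.trans ?_
    have h4 : R.natDegree + m' ≤ 2 * n := by omega
    have h5 : ((R.natDegree + m').factorial : ℤ) ≤ ((2 * n).factorial : ℤ) := by
      exact_mod_cast Nat.factorial_le h4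
    have h6 : ((n : ℤ) * B) ^ (R.natDegree + m') ≤ (n * B) ^ (2 * n) :=
      pow_le_pow_right₀ (by linarith) h4
    exact mul_le_mul h5 h6 (by positivity) (by positivity)
  have hlc : R.leadingCoeff ≠ 0 := leadingCoeff_ne_zero.2 hR.ne_zero
  refine ⟨R.leadingCoeff * res, mul_ne_zero hlc hresne, ?_, ?_⟩
  · rw [abs_mul, pow_succ]
    have h1 : |R.leadingCoeff| ≤ n * B := (hRB _).trans hnB
    calc |R.leadingCoeff| * |res| ≤ (n * B) * ((2 * n).factorial * (n * B) ^ (2 * n)) :=
          mul_le_mul h1 hresB (abs_nonneg _) (by positivity)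
      _ = _ := by ring
  · intro p hp hpD
    have hp1 : ¬ ((p : ℤ) ∣ R.leadingCoeff) := fun h => hpD (h.mul_right _)
    have hp2 : ¬ ((p : ℤ) ∣ res) := fun h => hpD (h.mul_left _)
    refine ⟨hp1, ?_⟩
    have : Fact p.Prime := ⟨hp⟩
    obtain ⟨u, v, -, -, huv⟩ := exists_mul_add_mul_eq_C_resultant (m := R.natDegree) (n := m')
      R R' le_rfl le_rfl (Or.inl (by omega))
    have h1 := congrArg (Polynomial.map (Int.castRingHom (ZMod p))) huv
    rw [Polynomial.map_add, Polynomial.map_mul, Polynomial.map_mul, Polynomial.map_C] at h1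
    have h2 : (Int.castRingHom (ZMod p)) res ≠ 0 := by
      intro h0
      apply hp2
      rw [← ZMod.intCast_zmod_eq_zero_iff_dvd]
      simpa using h0
    have h3 : R.resultant R' R.natDegree m' = res := rfl
    rw [h3] at h1
    set r := (Int.castRingHom (ZMod p)) res with hr
    have h4 : (C r⁻¹ : (ZMod p)[X]) * C r = 1 := by
      rw [← C_mul, inv_mul_cancel₀ h2, C_1]
    show IsCoprime _ (derivative _)
    rw [derivative_map]
    refine ⟨C r⁻¹ * u.map (Int.castRingHom (ZMod p)), C r⁻¹ * v.map (Int.castRingHom (ZMod p)), ?_⟩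
    rw [← h4, ← h1]
    ring

/-- Bertrand: a prime of controlled size not dividing `D`. -/
theorem prime_choice (K : ℕ) : ∀ (Y : ℕ) (D : ℤ), 1 ≤ Y → D ≠ 0 → |D| < (Y : ℤ) ^ K →
    ∃ p : ℕ, p.Prime ∧ Y < p ∧ p ≤ 2 ^ K * Y ∧ ¬ ((p : ℤ) ∣ D) := by
  induction K with
  | zero =>
    intro Y D hY hD h
    exfalso
    rw [pow_zero] at h
    have := Int.one_le_abs hD
    omega
  | succ K ih =>
    intro Y D hY hD h
    obtain ⟨p, hp, hYp, hp2⟩ := Nat.exists_prime_lt_and_le_two_mul Y (by omega)
    by_cases hdvd : (p : ℤ) ∣ D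
    · obtain ⟨D1, rfl⟩ := hdvd
      have hD1 : D1 ≠ 0 := right_ne_zero_of_mul hD
      have hp0 : (0 : ℤ) < p := by exact_mod_cast hp.pos
      have hlt : |D1| < (p : ℤ) ^ K := by
        rw [abs_mul, abs_of_pos hp0, pow_succ] at h
        have h1 : (Y : ℤ) ≤ p := by exact_mod_cast hYp.le
        have h2 : (Y : ℤ) ^ K * Y ≤ (p : ℤ) ^ K * p := by
          have := pow_le_pow_left₀ (by positivity) h1 K
          exact mul_le_mul this h1 (by positivity) (by positivity)
        nlinarith
      obtain ⟨r, hr, hpr, hr2, hrd⟩ := ih p D1 (by omega) hD1 hlt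
      refine ⟨r, hr, by omega, ?_, ?_⟩
      · calc r ≤ 2 ^ K * p := hr2
          _ ≤ 2 ^ K * (2 * Y) := Nat.mul_le_mul_left _ hp2
          _ = _ := by ring
      · intro h3
        rcases (Nat.prime_iff_prime_int.1 hr).dvd_or_dvd h3 with h4 | h4
        · have h5 : r ∣ p := by exact_mod_cast h4
          have := (Nat.prime_dvd_prime_iff_eq hr hp).1 h5
          omega
        · exact hrd h4
    · refine ⟨p, hp, hYp, ?_, hdvd⟩
      calc p ≤ 2 * Y := hp2
        _ ≤ 2 ^ (K + 1) * Y := by
          apply Nat.mul_le_mul_right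
          rw [pow_succ]
          have : 1 ≤ 2 ^ K := Nat.one_le_two_pow
          omega

/-- Choice of the auxiliary linear factors. -/
theorem exists_U (n k p : ℕ) (hk : k ≤ n) (hp : p.Prime) (hpn : 3 * n < p) (R P : ℤ[X])
    (hR : R.map (Int.castRingHom (ZMod p)) ≠ 0) (hRd : R.natDegree ≤ n)
    (hP : P ≠ 0) (hPd : P.natDegree ≤ n) :
    ∃ U : Finset ℤ, U ⊆ Finset.Ico 0 (3 * n : ℤ) ∧ U.card = k ∧
      ∀ u ∈ U, P.eval u ≠ 0 ∧ (R.map (Int.castRingHom (ZMod p))).eval (u : ZMod p) ≠ 0 := by
  classical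
  have : Fact p.Prime := ⟨hp⟩
  set Rb := R.map (Int.castRingHom (ZMod p)) with hRb
  set I := Finset.Ico (0 : ℤ) (3 * n) with hI
  set B1 := I.filter (fun u => P.eval u = 0) with hB1
  set B2 : Finset ℤ := I.filter (fun u : ℤ => Rb.eval ((u : ℤ) : ZMod p) = 0) with hB2
  have hIc : I.card = 3 * n := by
    rw [hI, Int.card_Ico]; omega
  have h1 : B1.card ≤ n := by
    have : B1 ⊆ P.roots.toFinset := by
      intro u hu
      rw [Multiset.mem_toFinset, mem_roots hP]
      exact (Finset.mem_filter.1 hu).2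
    exact ((Finset.card_le_card this).trans (Multiset.toFinset_card_le _)).trans
      ((card_roots' P).trans hPd)
  have h2 : B2.card ≤ n := by
    have hinj : Set.InjOn (fun u : ℤ => (u : ZMod p)) (B2 : Set ℤ) := by
      intro u hu v hv huv
      have hu' := Finset.mem_Ico.1 (Finset.mem_filter.1 (Finset.mem_coe.1 hu)).1
      have hv' := Finset.mem_Ico.1 (Finset.mem_filter.1 (Finset.mem_coe.1 hv)).1
      simp only at huv
      rw [ZMod.intCast_eq_intCast_iff_dvd_sub] at huv
      have habs : |v - u| < (p : ℤ) := by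
        rw [abs_lt]
        have : (3 * n : ℤ) < p := by exact_mod_cast hpn
        constructor <;> linarith
      have := Int.eq_zero_of_abs_lt_dvd huv habs
      linarith
    have hsub : B2.image (fun u : ℤ => (u : ZMod p)) ⊆ Rb.roots.toFinset := by
      intro x hx
      rw [Finset.mem_image] at hx
      obtain ⟨u, hu, rfl⟩ := hx
      rw [Multiset.mem_toFinset, mem_roots hR]
      exact (Finset.mem_filter.1 hu).2
    rw [← Finset.card_image_of_injOn hinj]
    refine ((Finset.card_le_card hsub).trans (Multiset.toFinset_card_le _)).trans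
      ((card_roots' Rb).trans (natDegree_map_le.trans hRd))
  have h3 : k ≤ (I \ (B1 ∪ B2)).card := by
    have h4 : (B1 ∪ B2).card ≤ 2 * n := by
      have := Finset.card_union_le B1 B2
      omega
    have h5 := Finset.le_card_sdiff (B1 ∪ B2) I
    omega
  obtain ⟨U, hU, hUc⟩ := Finset.exists_subset_card_eq h3
  refine ⟨U, ?_, hUc, ?_⟩
  · exact hU.trans Finset.sdiff_subset
  · intro u hu
    have h6 := Finset.mem_sdiff.1 (hU hu)
    rw [Finset.mem_union, not_or] at h6
    constructor
    · intro h7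
      exact h6.2.1 (Finset.mem_filter.2 ⟨h6.1, h7⟩)
    · intro h7
      exact h6.2.2 (Finset.mem_filter.2 ⟨h6.1, h7⟩)

end Pool.Agent.H961R3.C
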