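import Mathlib
import Pool.Agent.H961R3.CE
import Pool.Agent.H961R3.CG
import Pool.Agent.H961R3.CH

open Polynomial

namespace Pool.Agent.H961R3.C

/-- A small polynomial coprime to `R`. -/
lemma exists_P (n : ℕ) (hn : 1 ≤ n) (ζ : ℝ) : ∃ Cp : ℝ, 1 ≤ Cp ∧ ∀ R : ℤ[X], Irreducible R →
    1 ≤ R.natDegree → R.natDegree ≤ n → 4 * ((n : ℝ) + 1) ≤ Mm R →
    ∃ P : ℤ[X], P ≠ 0 ∧ P.natDegree ≤ n ∧ (∀ i, |(P.coeff i : ℝ)| ≤ Mm R) ∧
      |aeval ζ P| ≤ Cp / (Mm R) ^ n ∧
      IsCoprime (R.map (Int.castRingHom ℚ)) (P.map (Int.castRingHom ℚ)) := by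
  obtain ⟨C1, hC1, hD⟩ := dirichlet n hn ζ
  have hn0 : (0 : ℝ) ≤ n := Nat.cast_nonneg n
  refine ⟨C1 * (4 * ((n : ℝ) + 1)) ^ n, ?_, ?_⟩
  · have : (1 : ℝ) ≤ (4 * ((n : ℝ) + 1)) ^ n := one_le_pow₀ (by linarith)
    calc (1 : ℝ) = 1 * 1 := by ring
      _ ≤ _ := mul_le_mul hC1 this zero_le_one (by linarith)
  intro R hR hRd hRdn hH
  set H := Mm R with hHdef
  set Y : ℕ := ⌊H / (2 * ((n : ℝ) + 1))⌋₊ with hY
  have hpos : (0 : ℝ) < 2 * ((n : ℝ) + 1) := by linarith
  have hHpos : 0 < H := by linarith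
  have h1 : 2 ≤ H / (2 * ((n : ℝ) + 1)) := by
    rw [le_div_iff₀ hpos]; linarith
  have hYle : (Y : ℝ) ≤ H / (2 * ((n : ℝ) + 1)) := Nat.floor_le (by linarith)
  have hYgt : H / (2 * ((n : ℝ) + 1)) < Y + 1 := Nat.lt_floor_add_one _
  have hYge : H / (4 * ((n : ℝ) + 1)) ≤ Y := by
    have e1 : H / (2 * ((n : ℝ) + 1)) = 2 * (H / (4 * ((n : ℝ) + 1))) := by
      field_simp; ring
    rw [e1] at h1 hYgt
    linarith
  have hY1 : 1 ≤ Y := by
    have : (1 : ℝ) < (Y : ℝ) + 1 := by linarith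
    have : (0 : ℝ) < Y := by linarith
    exact_mod_cast this
  obtain ⟨P, hP0, hPd, hPc, hPv⟩ := hD Y hY1
  have hYH : (Y : ℝ) ≤ H := by
    refine hYle.trans ?_
    rw [div_le_iff₀ hpos]; nlinarith
  have hMP : Mm P < H := by
    have h2 := Mm_le P n hPd Y hPc
    have h3 : ((n : ℝ) + 1) * Y ≤ H / 2 := by
      have h4 : ((n : ℝ) + 1) * (H / (2 * ((n : ℝ) + 1))) = H / 2 := by
        field_simp
      rw [← h4]
      exact mul_le_mul_of_nonneg_left hYle (by linarith)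
    linarith
  have hndvd : ¬ R ∣ P := by
    rintro ⟨Q, hQ⟩
    have hQ0 : Q ≠ 0 := by rintro rfl; rw [mul_zero] at hQ; exact hP0 hQ
    have h2 := Mm_mul R Q
    rw [← hQ] at h2
    have h3 := one_le_Mm Q hQ0
    nlinarith
  refine ⟨P, hP0, hPd, fun i => (hPc i).trans hYH, ?_, ?_⟩
  · refine hPv.trans ?_
    have hYpos : (0 : ℝ) < Y := by exact_mod_cast hY1
    rw [div_le_div_iff₀ (by positivity) (by positivity)]
    have h2 : H ≤ Y * (4 * ((n : ℝ) + 1)) := by
      rwa [div_le_iff₀ (by linarith)] at hYge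
    have h3 : H ^ n ≤ (Y * (4 * ((n : ℝ) + 1))) ^ n := pow_le_pow_left₀ hHpos.le h2 n
    rw [mul_pow] at h3
    calc C1 * H ^ n ≤ C1 * ((Y : ℝ) ^ n * (4 * ((n : ℝ) + 1)) ^ n) :=
          mul_le_mul_of_nonneg_left h3 (by linarith)
      _ = _ := by ring
  · have hirr := irred_rat R hR hRd
    rw [hirr.coprime_iff_not_dvd]
    intro h2
    apply hndvd
    have hprim : R.IsPrimitive := hR.isPrimitive (by omega)
    exact (IsPrimitive.dvd_iff_fraction_map_dvd_fraction_map ℚ hprim).2 h2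

/-- product of the auxiliary linear factors -/
noncomputable def VV (U : Finset ℤ) : ℤ[X] := ∏ u ∈ U, (X - C u)

lemma VV_monic (U : Finset ℤ) : (VV U).Monic := monic_prod_of_monic _ _ (fun u _ => monic_X_sub_C u)

lemma VV_natDegree (U : Finset ℤ) : (VV U).natDegree = U.card := by
  unfold VV
  rw [natDegree_prod_of_monic _ _ (fun u _ => monic_X_sub_C u)]
  simp only [natDegree_X_sub_C, Finset.sum_const, smul_eq_mul, mul_one]

lemma Mm_VV (n : ℕ) (hn : 1 ≤ n) (U : Finset ℤ) (hU : U ⊆ Finset.Ico 0 (3 * n : ℤ)) :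
    Mm (VV U) ≤ (3 * n : ℝ) ^ U.card := by
  classical
  have hnR : (1 : ℝ) ≤ n := by exact_mod_cast hn
  induction U using Finset.induction_on with
  | empty =>
    simp [VV, Mm]
  | insert a s ha ih =>
    have h1 := ih (fun x hx => hU (Finset.mem_insert_of_mem hx))
    have h2 : VV (insert a s) = (X - C a) * VV s := by
      unfold VV; rw [Finset.prod_insert ha]
    rw [h2, Mm_mul, Finset.card_insert_of_notMem ha, pow_succ, mul_comm]
    have h3 : Mm (X - C a) ≤ 3 * n := by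
      unfold Mm
      rw [Polynomial.map_sub, Polynomial.map_X, Polynomial.map_C, mahlerMeasure_X_sub_C]
      have h4 := Finset.mem_Ico.1 (hU (Finset.mem_insert_self a s))
      apply max_le
      · linarith
      · have h5 : ‖(Int.castRingHom ℂ) a‖ = |(a : ℝ)| := by simp
        rw [h5, abs_of_nonneg (by exact_mod_cast h4.1)]
        have : (a : ℝ) < ((3 * n : ℤ) : ℝ) := by exact_mod_cast h4.2
        push_cast at this; linarith
    exact mul_le_mul h1 h3 (Mm_nonneg _) (by positivity)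

lemma aeval_VV (n : ℕ) (hn : 1 ≤ n) (ζ : ℝ) (U : Finset ℤ) (hU : U ⊆ Finset.Ico 0 (3 * n : ℤ)) :
    |aeval ζ (VV U)| ≤ (|ζ| + 3 * n : ℝ) ^ U.card := by
  unfold VV
  rw [map_prod, Finset.abs_prod]
  rw [← Finset.prod_const]
  apply Finset.prod_le_prod
  · intro i _; exact abs_nonneg _
  · intro u hu
    have h4 := Finset.mem_Ico.1 (hU hu)
    rw [map_sub, aeval_X, aeval_C]
    have h5 : |((algebraMap ℤ ℝ) u)| ≤ 3 * n := by
      simp only [algebraMap_int_eq, Int.coe_castRingHom]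
      rw [abs_of_nonneg (by exact_mod_cast h4.1)]
      have : (u : ℝ) < ((3 * n : ℤ) : ℝ) := by exact_mod_cast h4.2
      push_cast at this; linarith
    calc |ζ - (algebraMap ℤ ℝ) u| ≤ |ζ| + |(algebraMap ℤ ℝ) u| := abs_sub _ _
      _ ≤ _ := by linarith

lemma sep_RV (n p : ℕ) (hp : p.Prime) (hpn : 3 * n < p) (R : ℤ[X])
    (hsep : (R.map (Int.castRingHom (ZMod p))).Separable) (U : Finset ℤ)
    (hU : U ⊆ Finset.Ico 0 (3 * n : ℤ))
    (hUR : ∀ u ∈ U, (R.map (Int.castRingHom (ZMod p))).eval (u : ZMod p) ≠ 0) :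
    ((R * VV U).map (Int.castRingHom (ZMod p))).Separable := by
  have : Fact p.Prime := ⟨hp⟩
  rw [Polynomial.map_mul]
  have hV : (VV U).map (Int.castRingHom (ZMod p)) = ∏ u ∈ U, (X - C ((u : ℤ) : ZMod p)) := by
    unfold VV
    rw [Polynomial.map_prod]
    apply Finset.prod_congr rfl
    intro u _
    rw [Polynomial.map_sub, Polynomial.map_X, Polynomial.map_C]
    rfl
  rw [hV]
  apply Separable.mul hsep
  · rw [separable_prod_X_sub_C_iff' (f := fun u : ℤ => ((u : ℤ) : ZMod p))]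
    intro u hu v hv huv
    have hu' := Finset.mem_Ico.1 (hU hu)
    have hv' := Finset.mem_Ico.1 (hU hv)
    rw [ZMod.intCast_eq_intCast_iff_dvd_sub] at huv
    have habs : |v - u| < (p : ℤ) := by
      rw [abs_lt]
      have : (3 * n : ℤ) < p := by exact_mod_cast hpn
      constructor <;> linarith
    have := Int.eq_zero_of_abs_lt_dvd huv habs
    linarith
  · apply IsCoprime.prod_right
    intro u hu
    rw [isCoprime_comm, (irreducible_X_sub_C _).coprime_iff_not_dvd, dvd_iff_isRoot]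
    exact hUR u hu

lemma cop_RV (R P : ℤ[X])
    (hRP : IsCoprime (R.map (Int.castRingHom ℚ)) (P.map (Int.castRingHom ℚ)))
    (U : Finset ℤ) (hUP : ∀ u ∈ U, P.eval u ≠ 0) :
    IsCoprime ((R * VV U).map (Int.castRingHom ℚ)) (P.map (Int.castRingHom ℚ)) := by
  rw [Polynomial.map_mul]
  apply IsCoprime.mul_left hRP
  unfold VV
  rw [Polynomial.map_prod]
  apply IsCoprime.prod_left
  intro u hu
  rw [Polynomial.map_sub, Polynomial.map_X, Polynomial.map_C]
  rw [(irreducible_X_sub_C _).coprime_iff_not_dvd, dvd_iff_isRoot]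
  intro h
  apply hUP u hu
  rw [IsRoot, eval_map, eval₂_at_apply] at h
  simpa using h

end Pool.Agent.H961R3.C
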