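import Mathlib
import Pool.Agent.H961R3.CI

open Polynomial

namespace Pool.Agent.H961R3.C

/-- coefficient bounds for the members of the family -/
lemma member_coeff (n : ℕ) (hn : 1 ≤ n) (R P : ℤ[X]) (hRdn : R.natDegree ≤ n)
    (H : ℝ) (hH : 1 ≤ H) (hRH : Mm R = H) (hPc : ∀ i, |(P.coeff i : ℝ)| ≤ H)
    (U : Finset ℤ) (hU : U ⊆ Finset.Ico 0 (3 * n : ℤ)) (hUc : U.card = n - R.natDegree)
    (M : ℕ) (p : ℕ) (hp : 1 ≤ p) (s : ℤ) (hs : s ∈ Finset.Icc (1 : ℤ) M) (i : ℕ) :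
    |((R * VV U + C ((p : ℤ) * s) * P).coeff i : ℝ)| ≤
      (2 ^ n * (3 * n) ^ n + M) * p * H := by
  have hnR : (1 : ℝ) ≤ n := by exact_mod_cast hn
  have hpR : (1 : ℝ) ≤ p := by exact_mod_cast hp
  have hs' := Finset.mem_Icc.1 hs
  rw [coeff_add, coeff_C_mul]
  push_cast
  have h1 : |((R * VV U).coeff i : ℝ)| ≤ 2 ^ n * (3 * n) ^ n * H := by
    have e1 := coeff_le_Mm (R * VV U) i
    have e2 : (R * VV U).natDegree ≤ n := by
      refine natDegree_mul_le.trans ?_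
      rw [VV_natDegree, hUc]; omega
    have e3 : (2 : ℝ) ^ (R * VV U).natDegree ≤ 2 ^ n := pow_le_pow_right₀ (by norm_num) e2
    have e4 : Mm (R * VV U) ≤ H * (3 * n) ^ n := by
      rw [Mm_mul, hRH]
      have e5 := Mm_VV n hn U hU
      have e6 : (3 * n : ℝ) ^ U.card ≤ (3 * n : ℝ) ^ n :=
        pow_le_pow_right₀ (by linarith) (by rw [hUc]; omega)
      exact mul_le_mul_of_nonneg_left (e5.trans e6) (by linarith)
    calc |((R * VV U).coeff i : ℝ)| ≤ 2 ^ (R * VV U).natDegree * Mm (R * VV U) := e1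
      _ ≤ 2 ^ n * (H * (3 * n) ^ n) := mul_le_mul e3 e4 (Mm_nonneg _) (by positivity)
      _ = _ := by ring
  have h2 : |(p : ℝ) * s * (P.coeff i : ℝ)| ≤ p * M * H := by
    rw [abs_mul, abs_mul]
    have e1 : |(s : ℝ)| ≤ M := by
      rw [abs_of_nonneg (by exact_mod_cast (by omega : (0 : ℤ) ≤ s))]
      exact_mod_cast hs'.2
    have e2 : |(p : ℝ)| = p := abs_of_nonneg (by linarith)
    rw [e2]
    have e3 : (p : ℝ) * |(s : ℝ)| ≤ p * M := mul_le_mul_of_nonneg_left e1 (by linarith)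
    exact mul_le_mul e3 (hPc i) (abs_nonneg _) (by positivity)
  have h3 : (2 : ℝ) ^ n * (3 * n) ^ n * H ≤ 2 ^ n * (3 * n) ^ n * p * H := by
    have : (0 : ℝ) ≤ 2 ^ n * (3 * n) ^ n * H := by positivity
    nlinarith
  calc |((R * VV U).coeff i : ℝ) + (p : ℝ) * s * (P.coeff i : ℝ)|
      ≤ |((R * VV U).coeff i : ℝ)| + |(p : ℝ) * s * (P.coeff i : ℝ)| := abs_add_le _ _
    _ ≤ 2 ^ n * (3 * n) ^ n * p * H + p * M * H := by linarith
    _ = _ := by ring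

/-- bounds for factors -/
lemma factor_bound (n : ℕ) (F A A' : ℤ[X]) (hF : F.natDegree = n) (hF0 : F ≠ 0)
    (hAA' : A * A' = F) (B : ℝ) (hB : ∀ i, |(F.coeff i : ℝ)| ≤ B) (i : ℕ) :
    |((A'.leadingCoeff * A.coeff i : ℤ) : ℝ)| ≤ 2 ^ n * ((n + 1) * B) := by
  have hA0 : A ≠ 0 := by rintro rfl; rw [zero_mul] at hAA'; exact hF0 hAA'.symm
  have hA0' : A' ≠ 0 := by rintro rfl; rw [mul_zero] at hAA'; exact hF0 hAA'.symm
  have h1 := lc_le_Mm A'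
  have h2 := coeff_le_Mm A i
  have h3 : A.natDegree ≤ n := by
    rw [← hF, ← hAA', natDegree_mul hA0 hA0']; omega
  have h4 : (2 : ℝ) ^ A.natDegree ≤ 2 ^ n := pow_le_pow_right₀ (by norm_num) h3
  have h5 : Mm A * Mm A' = Mm F := by rw [← Mm_mul, hAA']
  have h6 := Mm_le F n hF.le B hB
  push_cast
  rw [abs_mul]
  calc |(A'.leadingCoeff : ℝ)| * |(A.coeff i : ℝ)| ≤ Mm A' * (2 ^ n * Mm A) := by
        apply mul_le_mul h1 (h2.trans (mul_le_mul_of_nonneg_right h4 (Mm_nonneg _)))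
          (abs_nonneg _) (Mm_nonneg _)
    _ = 2 ^ n * Mm F := by rw [← h5]; ring
    _ ≤ _ := by
        apply mul_le_mul_of_nonneg_left h6 (by positivity)

/-- value bound -/
lemma member_value (n : ℕ) (hn : 1 ≤ n) (ζ : ℝ) (R P : ℤ[X]) (v1 v2 : ℝ)
    (hR : |aeval ζ R| ≤ v1) (hP : |aeval ζ P| ≤ v2)
    (U : Finset ℤ) (hU : U ⊆ Finset.Ico 0 (3 * n : ℤ)) (hUc : U.card = n - R.natDegree)
    (M : ℕ) (p : ℕ) (s : ℤ) (hs : s ∈ Finset.Icc (1 : ℤ) M) :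
    |aeval ζ (R * VV U + C ((p : ℤ) * s) * P)| ≤ (|ζ| + 3 * n) ^ n * v1 + p * M * v2 := by
  have hnR : (1 : ℝ) ≤ n := by exact_mod_cast hn
  have hs' := Finset.mem_Icc.1 hs
  have hv1 : 0 ≤ v1 := (abs_nonneg _).trans hR
  have hv2 : 0 ≤ v2 := (abs_nonneg _).trans hP
  rw [map_add, map_mul, map_mul, aeval_C]
  have h1 : |aeval ζ (VV U)| ≤ (|ζ| + 3 * n) ^ n := by
    refine (aeval_VV n hn ζ U hU).trans ?_
    apply pow_le_pow_right₀
    · have := abs_nonneg ζ; linarith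
    · rw [hUc]; omega
  have h2 : |(algebraMap ℤ ℝ) ((p : ℤ) * s)| ≤ p * M := by
    simp only [algebraMap_int_eq, Int.coe_castRingHom]
    push_cast
    rw [abs_mul]
    have e1 : |(s : ℝ)| ≤ M := by
      rw [abs_of_nonneg (by exact_mod_cast (by omega : (0 : ℤ) ≤ s))]
      exact_mod_cast hs'.2
    have e2 : |(p : ℝ)| = p := abs_of_nonneg (Nat.cast_nonneg _)
    rw [e2]
    exact mul_le_mul_of_nonneg_left e1 (Nat.cast_nonneg _)
  refine (abs_add_le _ _).trans ?_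
  rw [abs_mul, abs_mul]
  have h3 : |aeval ζ R| * |aeval ζ (VV U)| ≤ (|ζ| + 3 * n) ^ n * v1 := by
    rw [mul_comm ((|ζ| + 3 * n) ^ n)]
    exact mul_le_mul hR h1 (abs_nonneg _) hv1
  have h4 : |(algebraMap ℤ ℝ) ((p : ℤ) * s)| * |aeval ζ P| ≤ p * M * v2 :=
    mul_le_mul h2 hP (abs_nonneg _) (by positivity)
  linarith

/-- Choice of the prime. -/
lemma prime_step (n : ℕ) (hn : 1 ≤ n) (ε : ℝ) (hε : 0 < ε) (k0 : ℕ)
    (hk0 : 2 * (n : ℝ) + 2 ≤ ε * k0) : ∃ K1 : ℝ, ∀ R : ℤ[X], Irreducible R →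
    1 ≤ R.natDegree → R.natDegree ≤ n → K1 ≤ Mm R → 1 ≤ Mm R →
    ∃ p : ℕ, p.Prime ∧ (Mm R) ^ ε < p ∧ (p : ℝ) ≤ 2 ^ (k0 + 1) * (Mm R) ^ ε ∧
      ¬ ((p : ℤ) ∣ R.leadingCoeff) ∧ (R.map (Int.castRingHom (ZMod p))).Separable := by
  set Cd : ℝ := (2 * n).factorial * (n * 2 ^ (n + 1)) ^ (2 * n + 1) with hCd
  have hnR : (1 : ℝ) ≤ n := by exact_mod_cast hn
  refine ⟨Cd + 1, ?_⟩
  intro R hR hRd hRdn hH1 hH
  set H := Mm R with hHdef
  have hHpos : 0 < H := by linarith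
  set B : ℤ := ⌊(2 : ℝ) ^ n * H⌋ + 1 with hB
  have hBle : (B : ℝ) ≤ 2 ^ (n + 1) * H := by
    have h1 : (⌊(2 : ℝ) ^ n * H⌋ : ℝ) ≤ 2 ^ n * H := Int.floor_le _
    have h2 : (1 : ℝ) ≤ 2 ^ n * H := by
      have : (1 : ℝ) ≤ 2 ^ n := one_le_pow₀ (by norm_num)
      nlinarith
    rw [hB]; push_cast
    rw [pow_succ]; linarith
  have hBge : (2 : ℝ) ^ n * H ≤ B := by
    rw [hB]; push_cast
    exact (Int.lt_floor_add_one _).le
  have hB1 : 1 ≤ B := by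
    have h2 : (0 : ℝ) ≤ 2 ^ n * H := by positivity
    have := Int.floor_nonneg.2 h2
    omega
  have hRB : ∀ i, |R.coeff i| ≤ B := by
    intro i
    have h1 := coeff_le_Mm R i
    have h2 : (2 : ℝ) ^ R.natDegree ≤ 2 ^ n := pow_le_pow_right₀ (by norm_num) hRdn
    have h3 : |(R.coeff i : ℝ)| ≤ B := by
      refine h1.trans (le_trans ?_ hBge)
      exact mul_le_mul_of_nonneg_right h2 hHpos.le
    exact_mod_cast h3
  obtain ⟨D, hD0, hDle, hDp⟩ := disc_bound n R hR hRd hRdn B hB1 hRB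
  set Y : ℕ := ⌈H ^ ε⌉₊ with hY
  have hHε : 1 ≤ H ^ ε := Real.one_le_rpow hH hε.le
  have hYge : H ^ ε ≤ Y := Nat.le_ceil _
  have hYlt : (Y : ℝ) < H ^ ε + 1 := Nat.ceil_lt_add_one (by linarith)
  have hY1 : 1 ≤ Y := by
    have : (1 : ℝ) ≤ Y := hHε.trans hYge
    exact_mod_cast this
  have hDlt : |D| < (Y : ℤ) ^ k0 := by
    have h1 : (|D| : ℝ) ≤ Cd * H ^ (2 * n + 1) := by
      have e1 : ((|D| : ℤ) : ℝ) ≤ (((2 * n).factorial * (n * B) ^ (2 * n + 1) : ℤ) : ℝ) := by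
        exact_mod_cast hDle
      push_cast at e1
      refine e1.trans ?_
      have e2 : ((n : ℝ) * B) ^ (2 * n + 1) ≤ (n * 2 ^ (n + 1) * H) ^ (2 * n + 1) := by
        apply pow_le_pow_left₀
        · have : (0 : ℝ) ≤ B := by exact_mod_cast (by omega : (0 : ℤ) ≤ B)
          positivity
        · rw [mul_assoc]
          exact mul_le_mul_of_nonneg_left hBle (by linarith)
      rw [mul_pow (((n : ℝ) * 2 ^ (n + 1))) H] at e2
      rw [hCd, mul_assoc]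
      exact mul_le_mul_of_nonneg_left e2 (by positivity)
    have h2 : Cd * H ^ (2 * n + 1) < H ^ (2 * n + 2) := by
      rw [pow_succ H (2 * n + 1), mul_comm]
      apply mul_lt_mul_of_pos_left _ (by positivity)
      linarith
    have h3 : H ^ (2 * n + 2) ≤ (Y : ℝ) ^ k0 := by
      have e1 : (H ^ ε) ^ k0 ≤ (Y : ℝ) ^ k0 := pow_le_pow_left₀ (by linarith) hYge k0
      refine le_trans ?_ e1
      rw [← Real.rpow_natCast (H ^ ε) k0, ← Real.rpow_mul hHpos.le,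
        ← Real.rpow_natCast H (2 * n + 2)]
      apply Real.rpow_le_rpow_of_exponent_le hH
      push_cast; linarith
    have h4 : (|D| : ℝ) < (Y : ℝ) ^ k0 := by linarith
    exact_mod_cast h4
  obtain ⟨p, hp, hYp, hpY, hpD⟩ := prime_choice k0 Y D hY1 hD0 hDlt
  refine ⟨p, hp, ?_, ?_, hDp p hp hpD⟩
  · have : (Y : ℝ) < p := by exact_mod_cast hYp
    linarith
  · have h1 : (p : ℝ) ≤ 2 ^ k0 * Y := by exact_mod_cast hpY
    have h2 : (Y : ℝ) ≤ 2 * H ^ ε := by linarith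
    calc (p : ℝ) ≤ 2 ^ k0 * Y := h1
      _ ≤ 2 ^ k0 * (2 * H ^ ε) := mul_le_mul_of_nonneg_left h2 (by positivity)
      _ = _ := by rw [pow_succ]; ring

end Pool.Agent.H961R3.C
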